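import Pool.Agent.Lib.MP_634427_lc.Cobham.FPLib

set_option autoImplicit false

/-! # Languages, P, NP, sparse and tally sets -/

namespace Pool.Agent.Lib.MP_634427_lc.Cobham

/-- binary strings -/
abbrev Str : Type := List Bool

/-- the class P -/
def InP (L : Set Str) : Prop := ∃ f : Str → Bool, FP f ∧ ∀ x, x ∈ L ↔ f x = true

/-- the class NP -/
def InNP (L : Set Str) : Prop :=
  ∃ (c : ℕ) (R : Str × Str → Bool), FP R ∧
    ∀ x, x ∈ L ↔ ∃ y : Str, y.length = x.length ^ c + c ∧ R (x, y) = true

/-- P = NP -/
def PeqNP : Prop := ∀ L : Set Str, InP L ↔ InNP L

/-- sparse sets: at most `n ^ c + c` elements of length at most `n` -/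
def Sparse (S : Set Str) : Prop :=
  ∃ c : ℕ, ∀ n : ℕ, {x ∈ S | x.length ≤ n}.ncard ≤ n ^ c + c

/-- tally sets: subsets of `{0}*` -/
def Tally (T : Set Str) : Prop := ∀ x ∈ T, ∀ b ∈ x, b = false

theorem InP.inNP {L : Set Str} (h : InP L) : InNP L := by
  obtain ⟨f, hf, hL⟩ := h
  refine ⟨0, fun p => f p.1, hf.comp .fst, fun x => ?_⟩
  rw [hL]
  constructor
  · intro h
    exact ⟨[false], by simp, h⟩
  · rintro ⟨y, -, h⟩
    exact h

/-! ### Coding of pairs -/

/-- code of a pair of strings -/
def enc (x u : Str) : Str := (x.flatMap fun b => [true, b]) ++ false :: u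

/-- step of the decoder -/
def decStep (s : Fin 3 × Str × Str) (b : Bool) : Fin 3 × Str × Str :=
  if s.1 = 0 then (if b = true then (1, s.2) else (2, s.2))
  else if s.1 = 1 then (0, b :: s.2.1, s.2.2)
  else (2, s.2.1, b :: s.2.2)

/-- decoder for pairs -/
def dec (w : Str) : Str × Str :=
  ((w.foldl decStep (0, [], [])).2.1.reverse, (w.foldl decStep (0, [], [])).2.2.reverse)

lemma dec_foldl_u (u : Str) (s : Str × Str) :
    u.foldl decStep (2, s) = (2, s.1, u.reverse ++ s.2) := by
  induction u generalizing s with
  | nil => rfl
  | cons b u ih =>
    rw [List.foldl_cons]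
    change u.foldl decStep (2, s.1, b :: s.2) = _
    rw [ih]
    simp

lemma dec_foldl_x (x : Str) (s : Str × Str) :
    (x.flatMap fun b => [true, b]).foldl decStep (0, s) = (0, x.reverse ++ s.1, s.2) := by
  induction x generalizing s with
  | nil => rfl
  | cons b x ih =>
    rw [List.flatMap_cons, List.foldl_append]
    change (x.flatMap fun b => [true, b]).foldl decStep (0, b :: s.1, s.2) = _
    rw [ih]
    simp

lemma dec_enc (x u : Str) : dec (enc x u) = (x, u) := by
  have h : (enc x u).foldl decStep (0, [], []) = (2, x.reverse, u.reverse) := by
    rw [enc, List.foldl_append, dec_foldl_x]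
    change u.foldl decStep (2, x.reverse ++ [], []) = _
    rw [dec_foldl_u]
    simp
  rw [dec, h]
  simp

lemma length_enc (x u : Str) : (enc x u).length = 2 * x.length + u.length + 1 := by
  have h : (x.flatMap fun b => [true, b]).length = 2 * x.length := by
    induction x with
    | nil => rfl
    | cons b x ih => rw [List.flatMap_cons, List.length_append, ih]; simp; ring
  rw [enc, List.length_append, h]
  simp only [List.length_cons]
  ring

lemma FP_enc : FP (fun p : Str × Str => enc p.1 p.2) := by
  refine .append (.flatMap (h := fun _ b => [true, b]) .fst ?_) (.cons' (.const _) .snd)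
  exact .cons' (.const _) (.cons' .snd (.const []))

lemma size_str (x : Str) : size x = 2 * x.length + 1 := by
  induction x with
  | nil => rfl
  | cons b x ih => simp only [size_cons, size_bool, ih, List.length_cons]; ring

lemma FP_dec : FP dec := by
  have hstep : FP (fun p : (Fin 3 × Str × Str) × Bool => decStep p.1 p.2) := by
    unfold decStep
    refine .ite (.decEq (.fst' .fst) (.const _)) (.ite (.decEq .snd (.const _))
      (.pair (.const _) (.snd' .fst)) (.pair (.const _) (.snd' .fst)))
      (.ite (.decEq (.fst' .fst) (.const _)) (.pair (.const _) (.pair (.cons' .snd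
        (.fst' (.snd' .fst))) (.snd' (.snd' .fst)))) (.pair (.const _) (.pair
          (.fst' (.snd' .fst)) (.cons' .snd (.snd' (.snd' .fst))))))
  have h0 : FP (fun w : Str => w.foldl decStep (0, [], [])) := by
    refine FP.foldl' (h := fun _ s b => decStep s b) (B := fun w => 2 * size w + 3) .id (.const _)
      (.comp2 hstep (.fst' (.snd' .id)) (.snd' (.snd' .id)))
      (((PB.const 2).mul PB.size).add (PB.const 3)) ?_
    intro x l hl
    have key : ∀ (l : Str) (s : Fin 3 × Str × Str),
        size (l.foldl decStep s) ≤ size s + 2 * l.length := by
      intro l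
      induction l with
      | nil => intro s; simp
      | cons b l ih =>
        intro s
        rw [List.foldl_cons]
        refine (ih _).trans ?_
        have : size (decStep s b) ≤ size s + 2 := by
          unfold decStep
          split_ifs <;> simp <;> omega
        simp only [List.length_cons]
        omega
    refine (key l _).trans ?_
    have h1 := hl.length_le
    have h2 := length_lt_size x
    simp only [size_prod, size_fin, size_nil]
    omega
  exact .pair (.reverse (.fst' (.snd' h0))) (.reverse (.snd' (.snd' h0)))

/-! ### Values of strings -/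

/-- the binary value of a string (most significant bit first) -/
def val (u : Str) : ℕ := u.foldl (fun s b => 2 * s + b.toNat) 0

lemma val_foldl (u : Str) (s : ℕ) :
    u.foldl (fun s b => 2 * s + b.toNat) s = s * 2 ^ u.length + val u := by
  induction u generalizing s with
  | nil => simp [val]
  | cons b u ih =>
    rw [val, List.foldl_cons, List.foldl_cons, ih, ih, List.length_cons]
    ring

lemma val_append (u v : Str) : val (u ++ v) = val u * 2 ^ v.length + val v := by
  rw [val, List.foldl_append, val_foldl]
  rfl

lemma val_cons (b : Bool) (u : Str) : val (b :: u) = b.toNat * 2 ^ u.length + val u := by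
  rw [← List.singleton_append, val_append]
  simp [val]

lemma val_snoc (u : Str) (b : Bool) : val (u ++ [b]) = 2 * val u + b.toNat := by
  rw [val_append]
  simp [val]
  ring

lemma val_lt (u : Str) : val u < 2 ^ u.length := by
  induction u with
  | nil => simp [val]
  | cons b u ih =>
    rw [val_cons, List.length_cons, pow_succ]
    cases b <;> simp <;> omega

lemma val_inj {u v : Str} (h : u.length = v.length) (hv : val u = val v) : u = v := by
  induction u generalizing v with
  | nil =>
    cases v with
    | nil => rfl
    | cons b v => simp at h
  | cons a u ih =>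
    cases v with
    | nil => simp at h
    | cons b v =>
      have hl : u.length = v.length := by simpa using h
      rw [val_cons, val_cons, hl] at hv
      have h1 := val_lt u
      have h2 := val_lt v
      rw [hl] at h1
      cases a <;> cases b <;> simp at hv
      · rw [ih hl hv]
      · omega
      · omega
      · rw [ih hl hv]

lemma val_take_mono {y z : Str} (h : y.length = z.length) (hv : val y ≤ val z) (n : ℕ) :
    val (y.take n) ≤ val (z.take n) := by
  have e1 : val y = val (y.take n) * 2 ^ (y.drop n).length + val (y.drop n) := by
    rw [← val_append, List.take_append_drop]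
  have e2 : val z = val (z.take n) * 2 ^ (z.drop n).length + val (z.drop n) := by
    rw [← val_append, List.take_append_drop]
  have hl : (y.drop n).length = (z.drop n).length := by simp [h]
  have h2 := val_lt (z.drop n)
  rw [hl] at e1
  by_contra hlt
  push Not at hlt
  have : (val (z.take n) + 1) * 2 ^ (z.drop n).length ≤
      val (y.take n) * 2 ^ (z.drop n).length := Nat.mul_le_mul_right _ hlt
  rw [add_mul, one_mul] at this
  omega

/-- comparison of natural numbers: equal, less, greater -/
def c3 (a b : ℕ) : Fin 3 := if a = b then 0 else if a < b then 1 else 2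

/-- step of the comparison of strings -/
def lebStep (s : Fin 3 × Str) (b : Bool) : Fin 3 × Str :=
  (if s.1 = 0 then (if b = s.2.headD b then 0 else if b = true then 2 else 1) else s.1, s.2.tail)

/-- comparison of values of strings of the same length -/
def leb (u v : Str) : Bool := decide ((u.foldl lebStep (0, v)).1 ≠ 2)

lemma lebStep_foldl (u : Str) (s : Fin 3 × Str) (h : u.length = s.2.length) :
    (u.foldl lebStep s).1 = if s.1 = 0 then c3 (val u) (val s.2) else s.1 := by
  induction u generalizing s with
  | nil =>
    obtain ⟨s, v⟩ := s
    have : v = [] := by simpa using h.symm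
    subst this
    by_cases hs : s = 0 <;> simp [hs, c3]
  | cons a u ih =>
    obtain ⟨s, v⟩ := s
    cases v with
    | nil => simp at h
    | cons b v =>
      have hl : u.length = v.length := by simpa using h
      rw [List.foldl_cons, ih _ (by simpa [lebStep] using hl)]
      have h1 := val_lt u
      have h2 := val_lt v
      rw [hl] at h1
      by_cases hs : s = 0
      · subst hs
        simp only [lebStep, List.headD_cons, List.tail_cons, if_true, val_cons, hl]
        cases a <;> cases b
        · simp
        · have e1 : ¬ val u = 2 ^ v.length + val v := by omega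
          have e2 : val u < 2 ^ v.length + val v := by omega
          simp [c3, e1, e2]
        · have e1 : ¬ 2 ^ v.length + val u = val v := by omega
          have e2 : ¬ 2 ^ v.length + val u < val v := by omega
          simp [c3, e1, e2]
        · simp [c3]
      · simp [lebStep, hs]

lemma leb_iff {u v : Str} (h : u.length = v.length) : leb u v = true ↔ val u ≤ val v := by
  unfold leb
  rw [decide_eq_true_iff, lebStep_foldl u (0, v) h, if_pos rfl]
  unfold c3
  split_ifs with h1 h2
  · simp [h1]
  · simp [h2.le]
  · dsimp only at h1 h2
    simp
    omega

lemma FP_leb : FP (fun p : Str × Str => leb p.1 p.2) := by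
  have hstep : FP (fun p : (Fin 3 × Str) × Bool => lebStep p.1 p.2) := by
    unfold lebStep
    refine .pair (.ite (.decEq (.fst' (.fst' .id)) (.const _)) (.ite (.decEq
        (.snd' .id) (.headD' (.snd' (.fst' .id)) (.snd' .id))) (.const _)
          (.ite (.decEq (.snd' .id) (.const _)) (.const _) (.const _)))
          (.fst' (.fst' .id))) (.tail' (.snd' (.fst' .id)))
  have h0 : FP (fun p : Str × Str => p.1.foldl lebStep (0, p.2)) := by
    refine FP.foldl' (h := fun _ s b => lebStep s b) (B := fun p => size p + 1) .fst
      (.pair (.const _) .snd) (.comp2 hstep (.fst' (.snd' .id)) (.snd' (.snd' .id)))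
        (PB.size.add (PB.const 1)) ?_
    intro x l _
    have key : ∀ (l : Str) (s : Fin 3 × Str), size (l.foldl lebStep s) ≤ size s := by
      intro l
      induction l with
      | nil => intro s; simp
      | cons a l ih =>
        intro s
        refine (ih _).trans ?_
        have := size_tail s.2
        simpa [lebStep] using this
    refine (key l _).trans ?_
    simp
    omega
  exact .comp (g := fun s : Fin 3 => decide (s ≠ 2)) (.table _) (.fst' h0)

end Pool.Agent.Lib.MP_634427_lc.Cobham
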