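import Mathlib

set_option autoImplicit false

/-!
# Polynomial time computable functions on finite data

`Data α` says that `α` is built from `Bool` and the finite types `Fin n` by forming products and
lists; `size` is the size of a data item.  `FP` is the class of polynomial time computable
functions between data types, in the form of Cobham's characterisation: the least class that
contains the finite tables, the constants, the projections and the list operations, and is closed
under composition, pairing, case distinction and size bounded iteration along a list (a loop all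
of whose intermediate results are bounded by a polynomial in the size of the input).
-/

namespace Pool.Agent.Lib.MP_634427_lc.Cobham

/-- The data types: built from `Bool` and `Fin n` by products and lists. -/
class inductive Data : Type → Type 1
  | bool : Data Bool
  | fin (n : ℕ) : Data (Fin n)
  | prod {α β : Type} (a : Data α) (b : Data β) : Data (α × β)
  | list {α : Type} (a : Data α) : Data (List α)

instance : Data Bool := .bool
instance (n : ℕ) : Data (Fin n) := .fin n
instance {α β : Type} [a : Data α] [b : Data β] : Data (α × β) := .prod a b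
instance {α : Type} [a : Data α] : Data (List α) := .list a

/-- The size of a data item. -/
def Data.sz : {α : Type} → Data α → α → ℕ
  | _, .bool, _ => 1
  | _, .fin _, _ => 1
  | _, .prod a b, p => a.sz p.1 + b.sz p.2
  | _, .list a, l => (l.map fun x => a.sz x + 1).sum + 1

/-- The size of a data item. -/
def size {α : Type} [d : Data α] (x : α) : ℕ := d.sz x

/-- The polynomial time computable functions. -/
inductive FP : {α β : Type} → [Data α] → [Data β] → (α → β) → Prop
  /-- identity -/
  | id {α : Type} [Data α] : FP (fun x : α => x)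
  /-- composition -/
  | comp {α β γ : Type} [Data α] [Data β] [Data γ] {g : β → γ} {f : α → β} :
      FP g → FP f → FP (fun x => g (f x))
  /-- pairing -/
  | pair {α β γ : Type} [Data α] [Data β] [Data γ] {f : α → β} {g : α → γ} :
      FP f → FP g → FP (fun x => (f x, g x))
  /-- first projection -/
  | fst {α β : Type} [Data α] [Data β] : FP (fun p : α × β => p.1)
  /-- second projection -/
  | snd {α β : Type} [Data α] [Data β] : FP (fun p : α × β => p.2)
  /-- constant functions -/
  | const {α β : Type} [Data α] [Data β] (b : β) : FP (fun _ : α => b)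
  /-- functions with a finite domain (tables) -/
  | table {α β : Type} [Data α] [Data β] [Finite α] (f : α → β) : FP f
  /-- adding an element at the head of a list -/
  | cons {α : Type} [Data α] : FP (fun p : α × List α => p.1 :: p.2)
  /-- head of a list, with a default for the empty list -/
  | headD {α : Type} [Data α] : FP (fun p : List α × α => p.1.headD p.2)
  /-- tail of a list -/
  | tail {α : Type} [Data α] : FP (fun l : List α => l.tail)
  /-- is the list empty? -/
  | isEmpty {α : Type} [Data α] : FP (fun l : List α => l.isEmpty)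
  /-- case distinction -/
  | cond {α β : Type} [Data α] [Data β] {c : α → Bool} {f g : α → β} :
      FP c → FP f → FP g → FP (fun x => if c x = true then f x else g x)
  /-- size bounded iteration along a list -/
  | foldl {α β σ : Type} [Data α] [Data β] [Data σ] {f : α → List β} {g : α → σ}
      {h : α × σ × β → σ} : FP f → FP g → FP h →
      (∃ k : ℕ, ∀ (x : α) (l : List β), l <+: f x →
        size (l.foldl (fun s b => h (x, s, b)) (g x)) ≤ (size x + 2) ^ k) →
      FP (fun x => (f x).foldl (fun s b => h (x, s, b)) (g x))

section size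

variable {α β : Type} [Data α] [Data β]

@[simp] lemma size_bool (b : Bool) : size b = 1 := rfl
@[simp] lemma size_fin {n : ℕ} (b : Fin n) : size b = 1 := rfl
@[simp] lemma size_prod (p : α × β) : size p = size p.1 + size p.2 := rfl
@[simp] lemma size_nil : size ([] : List α) = 1 := rfl
@[simp] lemma size_cons (a : α) (l : List α) : size (a :: l) = size a + size l + 1 := by
  simp only [size, instDataList, Data.sz, List.map_cons, List.sum_cons]; omega

lemma size_list (l : List α) : size l = (l.map fun x => size x + 1).sum + 1 := rfl

lemma size_append (l m : List α) : size (l ++ m) + 1 = size l + size m := by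
  simp only [size_list, List.map_append, List.sum_append]; omega

lemma Data.sz_pos {α : Type} (d : Data α) (x : α) : 1 ≤ d.sz x := by
  induction d with
  | bool => exact le_rfl
  | fin n => exact le_rfl
  | prod a b iha ihb =>
    have := iha x.1
    have h2 : (Data.prod a b).sz x = a.sz x.1 + b.sz x.2 := rfl
    omega
  | list a ih => exact Nat.le_add_left 1 _

lemma size_pos (x : α) : 1 ≤ size x := Data.sz_pos _ x

lemma length_lt_size (l : List α) : l.length < size l := by
  induction l with
  | nil => simp
  | cons a l ih => simp only [List.length_cons, size_cons]; have := size_pos a; omega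

lemma size_le_of_mem {a : α} {l : List α} (h : a ∈ l) : size a + 1 < size l := by
  induction l with
  | nil => simp at h
  | cons b l ih =>
    rcases List.mem_cons.1 h with rfl | h
    · have := length_lt_size l; simp only [size_cons]; omega
    · have := ih h; simp only [size_cons]; omega

lemma size_list_le (l : List α) (m : ℕ) (h : ∀ a ∈ l, size a ≤ m) :
    size l ≤ l.length * (m + 1) + 1 := by
  induction l with
  | nil => simp
  | cons a l ih =>
    have h1 := ih fun b hb => h b (List.mem_cons_of_mem _ hb)
    have h2 := h a List.mem_cons_self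
    simp only [size_cons, List.length_cons]
    nlinarith

lemma size_perm {l m : List α} (h : l.Perm m) : size l = size m := by
  simp only [size_list]
  rw [(h.map _).sum_eq]

lemma size_reverse (l : List α) : size l.reverse = size l := size_perm l.reverse_perm

lemma size_sublist {l m : List α} (h : l.Sublist m) : size l ≤ size m := by
  simp only [size_list]
  have := List.Sublist.sum_le_sum (h.map fun x => size x + 1) (by intro a _; exact Nat.zero_le a)
  omega

lemma size_take (l : List α) (n : ℕ) : size (l.take n) ≤ size l := size_sublist (l.take_sublist n)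
lemma size_drop (l : List α) (n : ℕ) : size (l.drop n) ≤ size l := size_sublist (l.drop_sublist n)
lemma size_tail (l : List α) : size l.tail ≤ size l := size_sublist l.tail_sublist
lemma size_filter (l : List α) (p : α → Bool) : size (l.filter p) ≤ size l :=
  size_sublist List.filter_sublist

end size

section arith

lemma pow_add_two_le (s k : ℕ) : (s + 2) ^ k + 2 ≤ (s + 2) ^ (k + 2) := by
  have h1 : 1 ≤ (s + 2) ^ k := Nat.one_le_pow _ _ (by omega)
  have h2 : (s + 2) ^ (k + 2) = (s + 2) ^ k * ((s + 2) * (s + 2)) := by ring
  have h3 : (s + 2) ^ k * 4 ≤ (s + 2) ^ k * ((s + 2) * (s + 2)) :=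
    Nat.mul_le_mul_left _ (by nlinarith)
  omega

lemma pow_comp_le (s k m : ℕ) : ((s + 2) ^ k + 2) ^ m ≤ (s + 2) ^ ((k + 2) * m) := by
  rw [pow_mul]
  exact Nat.pow_le_pow_left (pow_add_two_le s k) m

lemma pow_add_pow_le (s k m : ℕ) : (s + 2) ^ k + (s + 2) ^ m ≤ (s + 2) ^ (k + m + 1) := by
  have h1 : 1 ≤ (s + 2) ^ k := Nat.one_le_pow _ _ (by omega)
  have h2 : 1 ≤ (s + 2) ^ m := Nat.one_le_pow _ _ (by omega)
  have h3 : (s + 2) ^ (k + m + 1) = (s + 2) ^ k * (s + 2) ^ m * (s + 2) := by ring
  rw [h3]
  nlinarith [Nat.zero_le s, mul_nonneg (Nat.zero_le ((s + 2) ^ k * (s + 2) ^ m)) (Nat.zero_le s),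
    Nat.mul_le_mul h1 h2, mul_le_mul h1 (le_refl ((s+2)^m)) (by omega) (by omega),
    mul_le_mul (le_refl ((s+2)^k)) h2 (by omega) (by omega)]

lemma pow_mono' (s : ℕ) {k m : ℕ} (h : k ≤ m) : (s + 2) ^ k ≤ (s + 2) ^ m :=
  Nat.pow_le_pow_right (by omega) h

lemma le_pow_self' (s c : ℕ) : c ≤ (s + 2) ^ c :=
  (Nat.lt_two_pow_self).le.trans (Nat.pow_le_pow_left (by omega) c)

lemma self_le_pow (s : ℕ) : s + 2 ≤ (s + 2) ^ 1 := by simp

end arith

/-- `PB f`: the natural number valued function `f` is bounded by a polynomial in the size. -/
def PB {α : Type} [Data α] (f : α → ℕ) : Prop := ∃ k : ℕ, ∀ x, f x ≤ (size x + 2) ^ k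

namespace PB

variable {α β : Type} [Data α] [Data β]

lemma mono {f g : α → ℕ} (hg : PB g) (h : ∀ x, f x ≤ g x) : PB f := by
  obtain ⟨k, hk⟩ := hg
  exact ⟨k, fun x => (h x).trans (hk x)⟩

lemma const (c : ℕ) : PB (fun _ : α => c) := ⟨c, fun x => le_pow_self' _ c⟩

lemma size : PB (fun x : α => size x) := ⟨1, fun x => by simp⟩

lemma add {f g : α → ℕ} (hf : PB f) (hg : PB g) : PB (fun x => f x + g x) := by
  obtain ⟨k, hk⟩ := hf
  obtain ⟨m, hm⟩ := hg
  exact ⟨k + m + 1, fun x => (Nat.add_le_add (hk x) (hm x)).trans (pow_add_pow_le _ _ _)⟩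

lemma mul {f g : α → ℕ} (hf : PB f) (hg : PB g) : PB (fun x => f x * g x) := by
  obtain ⟨k, hk⟩ := hf
  obtain ⟨m, hm⟩ := hg
  exact ⟨k + m, fun x => (Nat.mul_le_mul (hk x) (hm x)).trans (by rw [pow_add])⟩

lemma pow {f : α → ℕ} (hf : PB f) (c : ℕ) : PB (fun x => f x ^ c) := by
  induction c with
  | zero => simpa using PB.const 1
  | succ c ih => simpa only [pow_succ] using ih.mul hf

lemma comp {g : β → ℕ} {f : α → β} (hg : PB g)
    (hf : PB (fun x => Pool.Agent.Lib.MP_634427_lc.Cobham.size (f x))) : PB (fun x => g (f x)) := by
  obtain ⟨k, hk⟩ := hf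
  obtain ⟨m, hm⟩ := hg
  refine ⟨(k + 2) * m, fun x => (hm (f x)).trans ?_⟩
  exact (Nat.pow_le_pow_left (Nat.add_le_add_right (hk x) 2) m).trans (pow_comp_le _ _ _)

end PB

/-- Outputs of functions in `FP` have polynomially bounded size. -/
theorem FP.bound {α β : Type} [Data α] [Data β] {f : α → β} (h : FP f) :
    PB (fun x => size (f x)) := by
  induction h with
  | id => exact PB.size
  | @comp _ _ _ _ _ _ g f _ _ ihg ihf => exact PB.comp (g := fun y => size (g y)) ihg ihf
  | pair _ _ ihf ihg => exact (ihf.add ihg).mono fun x => le_rfl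
  | fst => exact PB.size.mono fun x => by simp
  | snd => exact PB.size.mono fun x => by simp
  | const b => exact PB.const _
  | @table α β _ _ _ f =>
    obtain ⟨M, hM⟩ := (Set.finite_range fun x => size (f x)).bddAbove
    exact (PB.const M).mono fun x => hM ⟨x, rfl⟩
  | cons => exact (PB.size.add (PB.const 1)).mono fun x => by simp [size_cons, size_prod]
  | headD =>
    refine PB.size.mono fun x => ?_
    rcases x with ⟨_ | ⟨a, l⟩, b⟩
    · simp
    · simp; omega
  | tail => exact PB.size.mono fun x => size_tail x
  | isEmpty => exact (PB.const 1).mono fun x => by simp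
  | cond _ _ _ _ ihf ihg =>
    refine (ihf.add ihg).mono fun x => ?_
    dsimp only
    split_ifs <;> omega
  | foldl _ _ _ hb _ _ _ =>
    obtain ⟨k, hk⟩ := hb
    exact ⟨k, fun x => hk x _ (List.prefix_refl _)⟩

end Pool.Agent.Lib.MP_634427_lc.Cobham
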