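import Pool.Agent.Lib.MP_634427_lc.Cobham.FP

set_option autoImplicit false

/-! # Closure properties of `FP` -/

namespace Pool.Agent.Lib.MP_634427_lc.Cobham

namespace FP

variable {α β γ δ σ : Type} [Data α] [Data β] [Data γ] [Data δ] [Data σ]

theorem of_eq {f g : α → β} (hf : FP f) (h : ∀ x, f x = g x) : FP g :=
  (funext h : f = g) ▸ hf

theorem comp2 {g : β → γ → δ} (hg : FP (fun p : β × γ => g p.1 p.2)) {f : α → β} {h : α → γ}
    (hf : FP f) (hh : FP h) : FP (fun x => g (f x) (h x)) :=
  FP.comp (g := fun p : β × γ => g p.1 p.2) hg (hf.pair hh)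

theorem fst' {f : α → β × γ} (hf : FP f) : FP (fun x => (f x).1) := FP.comp FP.fst hf

theorem snd' {f : α → β × γ} (hf : FP f) : FP (fun x => (f x).2) := FP.comp FP.snd hf

theorem and {f g : α → Bool} (hf : FP f) (hg : FP g) : FP (fun x => f x && g x) :=
  comp2 (g := fun a b => a && b) (.table _) hf hg

theorem or {f g : α → Bool} (hf : FP f) (hg : FP g) : FP (fun x => f x || g x) :=
  comp2 (g := fun a b => a || b) (.table _) hf hg

theorem not {f : α → Bool} (hf : FP f) : FP (fun x => !f x) :=
  FP.comp (g := fun a => !a) (.table _) hf

theorem xor {f g : α → Bool} (hf : FP f) (hg : FP g) : FP (fun x => Bool.xor (f x) (g x)) :=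
  comp2 (g := fun a b => Bool.xor a b) (.table _) hf hg

theorem ite {c : α → Prop} [DecidablePred c] {f g : α → β} (hc : FP (fun x => decide (c x)))
    (hf : FP f) (hg : FP g) : FP (fun x => if c x then f x else g x) :=
  (FP.cond hc hf hg).of_eq fun x => by simp

theorem cons' {f : α → β} {l : α → List β} (hf : FP f) (hl : FP l) : FP (fun x => f x :: l x) :=
  comp2 (g := fun a b => a :: b) FP.cons hf hl

theorem headD' {f : α → β} {l : α → List β} (hl : FP l) (hf : FP f) :
    FP (fun x => (l x).headD (f x)) :=
  comp2 (g := fun a b => a.headD b) FP.headD hl hf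

theorem tail' {l : α → List β} (hl : FP l) : FP (fun x => (l x).tail) := FP.comp FP.tail hl

theorem isEmpty' {l : α → List β} (hl : FP l) : FP (fun x => (l x).isEmpty) :=
  FP.comp FP.isEmpty hl

/-- bounded iteration along a list, with a polynomial bound -/
theorem foldl' {f : α → List β} {g : α → σ} {h : α → σ → β → σ} (hf : FP f) (hg : FP g)
    (hh : FP (fun p : α × σ × β => h p.1 p.2.1 p.2.2)) {B : α → ℕ} (hB : PB B)
    (hb : ∀ x l, l <+: f x → size (l.foldl (h x) (g x)) ≤ B x) :
    FP (fun x => (f x).foldl (h x) (g x)) := by
  obtain ⟨k, hk⟩ := hB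
  exact FP.foldl (h := fun p : α × σ × β => h p.1 p.2.1 p.2.2) hf hg hh
    ⟨k, fun x l hl => (hb x l hl).trans (hk x)⟩

theorem reverse {f : α → List β} (hf : FP f) : FP (fun x => (f x).reverse) := by
  refine (foldl' (g := fun _ => []) (h := fun _ (s : List β) (b : β) => b :: s) hf (.const _)
    (cons' (snd' (snd' .id)) (fst' (snd' .id))) hf.bound ?_).of_eq fun x => ?_
  · intro x l hl
    have h1 : ∀ (l s : List β), l.foldl (fun s b => b :: s) s = l.reverse ++ s := by
      intro l
      induction l with
      | nil => intro s; simp
      | cons a l ih => intro s; simp [ih]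
    rw [h1, List.append_nil, size_reverse]
    exact size_sublist hl.sublist
  · have h1 : ∀ (l s : List β), l.foldl (fun s b => b :: s) s = l.reverse ++ s := by
      intro l
      induction l with
      | nil => intro s; simp
      | cons a l ih => intro s; simp [ih]
    rw [h1, List.append_nil]

theorem append {f g : α → List β} (hf : FP f) (hg : FP g) : FP (fun x => f x ++ g x) := by
  have h1 : ∀ (l s : List β), l.foldl (fun s b => b :: s) s = l.reverse ++ s := by
    intro l
    induction l with
    | nil => intro s; simp
    | cons a l ih => intro s; simp [ih]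
  refine (foldl' (h := fun _ (s : List β) (b : β) => b :: s) (reverse hf) hg
    (cons' (snd' (snd' .id)) (fst' (snd' .id))) (hf.bound.add hg.bound) ?_).of_eq fun x => ?_
  · intro x l hl
    rw [h1]
    have h2 := size_append l.reverse (g x)
    have h3 := size_reverse l
    have h4 := size_sublist hl.sublist
    rw [size_reverse] at h4
    omega
  · rw [h1, List.reverse_reverse]

theorem map {f : α → List β} {h : α → β → γ} (hf : FP f)
    (hh : FP (fun p : α × β => h p.1 p.2)) : FP (fun x => (f x).map (h x)) := by
  have h1 : ∀ (g : β → γ) (l : List β) (s : List γ),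
      l.foldl (fun s b => g b :: s) s = (l.map g).reverse ++ s := by
    intro g l
    induction l with
    | nil => intro s; simp
    | cons a l ih => intro s; simp [ih]
  obtain ⟨k, hk⟩ := hh.bound
  refine (reverse (foldl' (g := fun _ => []) (h := fun x (s : List γ) (b : β) => h x b :: s) hf
    (.const _) (cons' (comp2 hh (fst' .id) (snd' (snd' .id))) (fst' (snd' .id)))
    (B := fun x => size (f x) * ((size x + size (f x) + 2) ^ k + 1) + 1)
    ((hf.bound.mul ((((PB.size.add hf.bound).add (PB.const 2)).pow k).add (PB.const 1))).add
      (PB.const 1)) ?_)).of_eq fun x => ?_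
  · intro x l hl
    rw [h1, List.append_nil, size_reverse]
    refine (size_list_le _ ((size x + size (f x) + 2) ^ k) ?_).trans ?_
    · intro c hc
      obtain ⟨b, hb, rfl⟩ := List.mem_map.1 hc
      refine (hk (x, b)).trans (Nat.pow_le_pow_left ?_ k)
      have := size_le_of_mem (hl.subset hb)
      simp only [size_prod]
      omega
    · rw [List.length_map]
      have h2 := hl.length_le
      have h3 := length_lt_size (f x)
      have : l.length ≤ size (f x) := by omega
      nlinarith [Nat.mul_le_mul_right ((size x + size (f x) + 2) ^ k + 1) this]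
  · rw [h1, List.append_nil, List.reverse_reverse]

theorem flatten {f : α → List (List β)} (hf : FP f) : FP (fun x => (f x).flatten) := by
  have h1 : ∀ (l : List (List β)) (s : List β), l.foldl (fun s b => s ++ b) s = s ++ l.flatten := by
    intro l
    induction l with
    | nil => intro s; simp
    | cons a l ih => intro s; simp [ih]
  have h2 : ∀ l : List (List β), size l.flatten ≤ size l := by
    intro l
    induction l with
    | nil => simp
    | cons a l ih =>
      have := size_append a l.flatten
      simp only [List.flatten_cons, size_cons]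
      omega
  refine (foldl' (g := fun _ => []) (h := fun _ (s : List β) (b : List β) => s ++ b) hf
    (.const _) (append (fst' (snd' .id)) (snd' (snd' .id))) hf.bound ?_).of_eq fun x => ?_
  · intro x l hl
    rw [h1, List.nil_append]
    exact (h2 l).trans (size_sublist hl.sublist)
  · rw [h1, List.nil_append]

theorem flatMap {f : α → List β} {h : α → β → List γ} (hf : FP f)
    (hh : FP (fun p : α × β => h p.1 p.2)) : FP (fun x => (f x).flatMap (h x)) :=
  (flatten (map hf hh)).of_eq fun x => by rw [List.flatMap_def]

theorem filter {f : α → List β} {h : α → β → Bool} (hf : FP f)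
    (hh : FP (fun p : α × β => h p.1 p.2)) : FP (fun x => (f x).filter (h x)) := by
  refine (flatMap (h := fun x b => if h x b = true then [b] else []) hf
    (.cond hh (cons' (snd' .id) (.const [])) (.const []))).of_eq fun x => ?_
  induction f x with
  | nil => rfl
  | cons a l ih =>
    rw [List.flatMap_cons, ih]
    by_cases h1 : h x a = true <;> simp [h1]

/-- folds with values in a finite type -/
theorem foldl_fin [Finite σ] {f : α → List β} {g : α → σ} {h : α → σ → β → σ} (hf : FP f)
    (hg : FP g) (hh : FP (fun p : α × σ × β => h p.1 p.2.1 p.2.2)) :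
    FP (fun x => (f x).foldl (h x) (g x)) := by
  obtain ⟨M, hM⟩ := (Set.finite_range fun x : σ => size x).bddAbove
  exact foldl' hf hg hh (PB.const M) fun x l _ => hM ⟨_, rfl⟩

theorem all {f : α → List β} {h : α → β → Bool} (hf : FP f)
    (hh : FP (fun p : α × β => h p.1 p.2)) : FP (fun x => (f x).all (h x)) := by
  refine (foldl_fin (g := fun _ => true) (h := fun x s b => s && h x b) hf (.const _)
    (and (fst' (snd' .id)) (comp2 hh (fst' .id) (snd' (snd' .id))))).of_eq fun x => ?_
  have h1 : ∀ (l : List β) (s : Bool), l.foldl (fun s b => s && h x b) s = (s && l.all (h x)) := by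
    intro l
    induction l with
    | nil => intro s; simp
    | cons a l ih => intro s; simp [ih, Bool.and_assoc]
  rw [h1, Bool.true_and]

theorem any {f : α → List β} {h : α → β → Bool} (hf : FP f)
    (hh : FP (fun p : α × β => h p.1 p.2)) : FP (fun x => (f x).any (h x)) :=
  (not (all (h := fun x b => !h x b) hf (not hh))).of_eq fun x => by
    rw [List.all_eq_not_any_not]
    simp

/-- truth value of a proposition -/
noncomputable def dc (p : Prop) : Bool := @decide p (Classical.dec p)

omit [Data α] in
lemma dc_iff (p : Prop) : dc p = true ↔ p := @decide_eq_true_iff p (Classical.dec p)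

theorem eq (α : Type) [d : Data α] [DecidableEq α] : FP (fun p : α × α => decide (p.1 = p.2)) := by
  suffices h : FP (fun p : α × α => dc (p.1 = p.2)) by
    refine h.of_eq fun x => ?_
    rw [Bool.eq_iff_iff, dc_iff, decide_eq_true_iff]
  have main : ∀ (α : Type) (d : Data α),
      @FP (α × α) Bool (Data.prod d d) _ (fun p : α × α => dc (p.1 = p.2)) := by
    intro α d
    induction d with
    | bool => exact FP.table _
    | fin n => exact FP.table _
    | @prod β γ a b iha ihb =>
      let _ := a
      let _ := b
      have h1 : FP (fun p : (β × γ) × (β × γ) => dc (p.1.1 = p.2.1)) :=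
        comp2 (g := fun x y : β => dc (x = y)) iha (fst' (fst' .id)) (fst' (snd' .id))
      have h2 : FP (fun p : (β × γ) × (β × γ) => dc (p.1.2 = p.2.2)) :=
        comp2 (g := fun x y : γ => dc (x = y)) ihb (snd' (fst' .id)) (snd' (snd' .id))
      refine (and h1 h2).of_eq fun x => ?_
      rw [Bool.eq_iff_iff, Bool.and_eq_true, dc_iff, dc_iff, dc_iff, Prod.ext_iff]
    | @list β a ih =>
      let _ := a
      have hstep : FP (fun p : (List β × List β) × (Bool × List β) × β =>
          ((p.2.1.1 && !p.2.1.2.isEmpty) && dc (p.2.2 = p.2.1.2.headD p.2.2), p.2.1.2.tail)) := by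
        refine pair (and (and (fst' (fst' (snd' .id))) (not (isEmpty' (snd' (fst' (snd' .id)))))) ?_)
          (tail' (snd' (fst' (snd' .id))))
        exact comp2 (g := fun x y : β => dc (x = y)) ih (snd' (snd' .id))
          (headD' (snd' (fst' (snd' .id))) (snd' (snd' .id)))
      have h0 := foldl' (α := List β × List β) (f := fun p => p.1) (g := fun p => (true, p.2))
        (h := fun _ s b => ((s.1 && !s.2.isEmpty) && dc (b = s.2.headD b), s.2.tail)) .fst
            (pair (.const true) .snd) hstep (PB.size.add (PB.const 1)) (by
          intro x l _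
          have : ∀ (l : List β) (s : Bool × List β), size (l.foldl (fun s b =>
              ((s.1 && !s.2.isEmpty) && dc (b = s.2.headD b), s.2.tail)) s)
              ≤ size s.2 + 1 := by
            intro l
            induction l with
            | nil => intro s; simp; omega
            | cons a l ih => intro s; exact (ih _).trans (by have := size_tail s.2; simpa using this)
          refine (this l _).trans ?_
          simp)
      refine (and (fst' h0) (isEmpty' (snd' h0))).of_eq ?_
      intro x
      have key : ∀ (l : List β) (s : Bool × List β),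
          ((l.foldl (fun s b => ((s.1 && !s.2.isEmpty) && dc (b = s.2.headD b), s.2.tail)) s).1 &&
          (l.foldl (fun s b => ((s.1 && !s.2.isEmpty) && dc (b = s.2.headD b),
            s.2.tail)) s).2.isEmpty) = (s.1 && dc (l = s.2)) := by
        intro l
        induction l with
        | nil =>
          rintro ⟨s, m⟩
          rw [Bool.eq_iff_iff, Bool.and_eq_true, Bool.and_eq_true, dc_iff]
          cases m <;> simp
        | cons a l ih =>
          rintro ⟨s, m⟩
          rw [List.foldl_cons, ih]
          rw [Bool.eq_iff_iff]
          simp only [Bool.and_eq_true, dc_iff]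
          cases m with
          | nil => simp
          | cons b m => simp [and_assoc]
      rw [key, Bool.eq_iff_iff]
      simp only [Bool.and_eq_true, dc_iff, true_and]
  exact main α d

theorem decEq [DecidableEq β] {f g : α → β} (hf : FP f) (hg : FP g) :
    FP (fun x => decide (f x = g x)) :=
  comp2 (g := fun a b => decide (a = b)) (FP.eq β) hf hg

theorem mem [DecidableEq β] {f : α → β} {l : α → List β} (hf : FP f) (hl : FP l) :
    FP (fun x => decide (f x ∈ l x)) := by
  refine (any (h := fun x b => decide (f x = b)) hl
    (decEq (hf.comp (.fst)) (.snd))).of_eq fun x => ?_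
  rw [Bool.eq_iff_iff]
  simp

end FP

/-- polynomial time computable natural numbers in unary notation -/
def FPN {α : Type} [Data α] (f : α → ℕ) : Prop := FP (fun x => List.replicate (f x) (0 : Fin 1))

namespace FPN

variable {α β γ δ σ : Type} [Data α] [Data β] [Data γ] [Data δ] [Data σ]

theorem of_eq {f g : α → ℕ} (hf : FPN f) (h : ∀ x, f x = g x) : FPN g :=
  (funext h : f = g) ▸ hf

theorem const (c : ℕ) : FPN (fun _ : α => c) := FP.const _

theorem comp {g : β → ℕ} {f : α → β} (hg : FPN g) (hf : FP f) : FPN (fun x => g (f x)) :=
  FP.comp hg hf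

theorem length {l : α → List β} (hl : FP l) : FPN (fun x => (l x).length) :=
  (FP.map (h := fun _ _ => (0 : Fin 1)) hl (.const _)).of_eq fun x => by simp

theorem add {f g : α → ℕ} (hf : FPN f) (hg : FPN g) : FPN (fun x => f x + g x) :=
  (FP.append hf hg).of_eq fun x => by simp

theorem mul {f g : α → ℕ} (hf : FPN f) (hg : FPN g) : FPN (fun x => f x * g x) :=
  (FP.flatMap (h := fun x _ => List.replicate (g x) (0 : Fin 1)) hf (hg.comp .fst)).of_eq
    fun x => by
      have key : ∀ n m : ℕ, (List.replicate n (0 : Fin 1)).flatMap
          (fun _ => List.replicate m (0 : Fin 1)) = List.replicate (n * m) 0 := by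
        intro n m
        induction n with
        | zero => simp
        | succ n ih =>
          rw [List.replicate_succ, List.flatMap_cons, ih, List.replicate_append_replicate]
          congr 1
          ring
      exact key _ _

theorem pow {f : α → ℕ} (hf : FPN f) (c : ℕ) : FPN (fun x => f x ^ c) := by
  induction c with
  | zero => exact (const 1).of_eq fun x => by simp
  | succ c ih => exact (ih.mul hf).of_eq fun x => by rw [pow_succ]

theorem bound {f : α → ℕ} (hf : FPN f) : PB f :=
  (FP.bound hf).mono fun x => by
    have := length_lt_size (List.replicate (f x) (0 : Fin 1))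
    simp only [List.length_replicate] at this
    exact this.le

end FPN

namespace FP

variable {α β γ δ σ : Type} [Data α] [Data β] [Data γ] [Data δ] [Data σ]

/-- bounded iteration -/
theorem iterate {n : α → ℕ} {g : α → σ} {h : α → σ → σ} (hn : FPN n) (hg : FP g)
    (hh : FP (fun p : α × σ => h p.1 p.2)) {B : α → ℕ} (hB : PB B)
    (hb : ∀ x i, i ≤ n x → size ((h x)^[i] (g x)) ≤ B x) :
    FP (fun x => (h x)^[n x] (g x)) := by
  have h1 : ∀ (h : σ → σ) (l : List (Fin 1)) (s : σ),
      l.foldl (fun s _ => h s) s = h^[l.length] s := by
    intro h l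
    induction l with
    | nil => intro s; simp
    | cons a l ih => intro s; simp [ih, Function.iterate_succ_apply]
  refine (foldl' (h := fun x s (_ : Fin 1) => h x s) hn hg
    (comp2 hh (fst' .id) (fst' (snd' .id))) hB ?_).of_eq fun x => ?_
  · intro x l hl
    rw [h1]
    refine hb x _ ?_
    have := hl.length_le
    simpa using this
  · rw [h1, List.length_replicate]

theorem drop {n : α → ℕ} {l : α → List β} (hn : FPN n) (hl : FP l) :
    FP (fun x => (l x).drop (n x)) := by
  have h1 : ∀ (i : ℕ) (l : List β), (List.tail)^[i] l = l.drop i := by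
    intro i
    induction i with
    | zero => intro l; simp
    | succ i ih => intro l; rw [Function.iterate_succ_apply, ih, List.drop_tail]
  refine (iterate (h := fun _ (l : List β) => l.tail) hn hl (tail' (snd' .id)) hl.bound ?_).of_eq
    fun x => ?_
  · intro x i _
    rw [h1]
    exact size_drop _ _
  · exact h1 _ _

theorem take {n : α → ℕ} {l : α → List β} (hn : FPN n) (hl : FP l) :
    FP (fun x => (l x).take (n x)) := by
  refine (reverse (drop (n := fun x => (l x).length - n x) (l := fun x => (l x).reverse) ?_
    (reverse hl))).of_eq fun x => ?_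
  · refine (drop hn (FPN.length hl)).of_eq fun x => ?_
    rw [List.drop_replicate]
  · rw [List.reverse_drop, List.reverse_reverse, List.length_reverse]
    rcases le_total (n x) (l x).length with h | h
    · rw [Nat.sub_sub_self h]
    · rw [Nat.sub_eq_zero_of_le h, Nat.sub_zero, List.take_length, List.take_of_length_le h]

theorem nle {n m : α → ℕ} (hn : FPN n) (hm : FPN m) : FP (fun x => decide (n x ≤ m x)) :=
  (isEmpty' (drop hm hn)).of_eq fun x => by
    rw [List.drop_replicate, Bool.eq_iff_iff, List.isEmpty_iff, decide_eq_true_iff]
    simp [Nat.sub_eq_zero_iff_le]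

theorem nlt {n m : α → ℕ} (hn : FPN n) (hm : FPN m) : FP (fun x => decide (n x < m x)) :=
  (not (nle hm hn)).of_eq fun x => by
    rw [Bool.eq_iff_iff]
    simp

theorem neq {n m : α → ℕ} (hn : FPN n) (hm : FPN m) : FP (fun x => decide (n x = m x)) :=
  (and (nle hn hm) (nle hm hn)).of_eq fun x => by
    rw [Bool.eq_iff_iff]
    simp only [Bool.and_eq_true, decide_eq_true_eq]
    omega

theorem replicate {n : α → ℕ} {f : α → β} (hn : FPN n) (hf : FP f) :
    FP (fun x => List.replicate (n x) (f x)) :=
  (map (h := fun x (_ : Fin 1) => f x) hn (hf.comp .fst)).of_eq fun x => by simp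

theorem getD {n : α → ℕ} {l : α → List β} {f : α → β} (hl : FP l) (hn : FPN n) (hf : FP f) :
    FP (fun x => (l x).getD (n x) (f x)) :=
  (headD' (drop hn hl) hf).of_eq fun x => by
    rw [List.headD_eq_head?_getD, List.head?_drop, List.getD_eq_getElem?_getD]

end FP

namespace FPN

variable {α β γ δ σ : Type} [Data α] [Data β] [Data γ] [Data δ] [Data σ]

theorem sub {f g : α → ℕ} (hf : FPN f) (hg : FPN g) : FPN (fun x => f x - g x) :=
  (FP.drop hg hf).of_eq fun x => by rw [List.drop_replicate]

theorem ite {c : α → Prop} [DecidablePred c] {f g : α → ℕ} (hc : FP (fun x => decide (c x)))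
    (hf : FPN f) (hg : FPN g) : FPN (fun x => if c x then f x else g x) :=
  (FP.ite hc hf hg).of_eq fun x => by
    by_cases h : c x
    · simp [h]
    · simp [h]

end FPN

end Pool.Agent.Lib.MP_634427_lc.Cobham
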