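import Pool.Agent.Lib.MP_634427_lc.Cobham.FPLib

set_option autoImplicit false

/-! # More closure properties of `FP`: folds from the right, duplicates, ranges -/

namespace Pool.Agent.Lib.MP_634427_lc.Cobham

namespace FP

variable {α β γ δ σ : Type} [Data α] [Data β] [Data γ] [Data δ] [Data σ]

theorem foldr' {f : α → List β} {g : α → σ} {h : α → β → σ → σ} (hf : FP f) (hg : FP g)
    (hh : FP (fun p : α × β × σ => h p.1 p.2.1 p.2.2)) {B : α → ℕ} (hB : PB B)
    (hb : ∀ x l, l <:+ f x → size (l.foldr (h x) (g x)) ≤ B x) :
    FP (fun x => (f x).foldr (h x) (g x)) := by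
  refine (foldl' (f := fun x => (f x).reverse) (g := g) (h := fun x s b => h x b s) (reverse hf) hg
    (.comp (g := fun p : α × β × σ => h p.1 p.2.1 p.2.2) hh
      (.pair .fst (.pair (.snd' .snd) (.fst' .snd)))) hB ?_).of_eq fun x => ?_
  · intro x l hl
    have h1 := hb x l.reverse (by rwa [← List.reverse_prefix, List.reverse_reverse])
    rwa [List.foldr_reverse] at h1
  · rw [List.foldl_reverse]

lemma foldr_dedup {β : Type} [DecidableEq β] (l : List β) :
    l.foldr (fun a s => if a ∈ s then s else a :: s) [] = l.dedup := by
  induction l with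
  | nil => rfl
  | cons a l ih =>
    rw [List.foldr_cons, ih]
    by_cases h : a ∈ l
    · rw [if_pos (List.mem_dedup.2 h), List.dedup_cons_of_mem h]
    · rw [if_neg (fun h' => h (List.mem_dedup.1 h')), List.dedup_cons_of_notMem h]

theorem dedup [DecidableEq β] {f : α → List β} (hf : FP f) : FP (fun x => (f x).dedup) := by
  refine (foldr' (g := fun _ => []) (h := fun _ (a : β) (s : List β) => if a ∈ s then s else a :: s)
    hf (.const _) (.ite (.mem (.fst' .snd) (.snd' .snd)) (.snd' .snd)
      (.cons' (.fst' .snd) (.snd' .snd))) hf.bound ?_).of_eq fun x => ?_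
  · intro x l hl
    rw [foldr_dedup]
    exact size_sublist ((List.dedup_sublist l).trans hl.sublist)
  · exact foldr_dedup _

omit [Data α] [Data β] [Data γ] [Data δ] [Data σ] in
lemma decide_inst (p : Prop) (i j : Decidable p) : @decide p i = @decide p j :=
  congrArg (fun k => @decide p k) (Subsingleton.elim i j)

theorem mem' [DecidableEq β] {f : α → β} {l : α → List β} [inst : ∀ x, Decidable (f x ∈ l x)]
    (hf : FP f) (hl : FP l) : FP (fun x => decide (f x ∈ l x)) :=
  (mem hf hl).of_eq fun _ => decide_inst _ _ _

/-- the numbers below `n` in unary notation -/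
def nums (n : ℕ) : List (List (Fin 1)) := (List.range n).map fun i => List.replicate i 0

theorem FP_nums {n : α → ℕ} (hn : FPN n) : FP (fun x => nums (n x)) := by
  have key : ∀ i : ℕ, (fun s : List (List (Fin 1)) × List (Fin 1) =>
      (s.1 ++ [s.2], (0 : Fin 1) :: s.2))^[i] ([], []) = (nums i, List.replicate i 0) := by
    intro i
    induction i with
    | zero => rfl
    | succ i ih =>
      rw [Function.iterate_succ_apply', ih]
      simp only [nums, List.range_succ, List.map_append, List.map_cons, List.map_nil,
        List.replicate_succ]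
  have hsz : ∀ i : ℕ, size (List.replicate i (0 : Fin 1)) = 2 * i + 1 := by
    intro i
    induction i with
    | zero => rfl
    | succ i ih => rw [List.replicate_succ, size_cons, ih, size_fin]; omega
  refine (fst' (iterate (n := n) (g := fun _ => (([] : List (List (Fin 1))), ([] : List (Fin 1))))
    (h := fun _ (s : List (List (Fin 1)) × List (Fin 1)) => (s.1 ++ [s.2], (0 : Fin 1) :: s.2))
    hn (.const _) (.pair (.append (.fst' .snd) (.cons' (.snd' .snd) (.const [])))
      (.cons' (.const _) (.snd' .snd)))
    (B := fun x => n x * (2 * n x + 2) + 1 + (2 * n x + 1))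
    (((hn.bound.mul (((PB.const 2).mul hn.bound).add (PB.const 2))).add (PB.const 1)).add
      (((PB.const 2).mul hn.bound).add (PB.const 1))) ?_)).of_eq fun x => ?_
  · intro x i hi
    rw [key, size_prod]
    refine Nat.add_le_add ?_ (by dsimp only; rw [hsz]; omega)
    refine (size_list_le _ (2 * n x + 1) ?_).trans ?_
    · intro a ha
      obtain ⟨j, hj, rfl⟩ := List.mem_map.1 ha
      rw [hsz]
      have := List.mem_range.1 hj
      omega
    · have : (nums i).length = i := by simp [nums]
      rw [this]
      exact Nat.add_le_add_right (Nat.mul_le_mul_right _ hi) 1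
  · rw [key]

theorem mapRange {n : α → ℕ} {h : α → ℕ → β} (hn : FPN n)
    (hh : FP (fun p : α × List (Fin 1) => h p.1 p.2.length)) :
    FP (fun x => (List.range (n x)).map (h x)) :=
  (map (h := fun x (a : List (Fin 1)) => h x a.length) (FP_nums hn) hh).of_eq fun x => by
    rw [nums, List.map_map]
    refine List.map_congr_left fun i _ => ?_
    simp

theorem flatMapRange {n : α → ℕ} {h : α → ℕ → List β} (hn : FPN n)
    (hh : FP (fun p : α × List (Fin 1) => h p.1 p.2.length)) :
    FP (fun x => (List.range (n x)).flatMap (h x)) :=
  (flatten (mapRange hn hh)).of_eq fun x => by rw [List.flatMap_def]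

theorem countRange {n : α → ℕ} {h : α → ℕ → Bool} (hn : FPN n)
    (hh : FP (fun p : α × List (Fin 1) => h p.1 p.2.length)) :
    FPN (fun x => (List.range (n x)).countP (h x)) := by
  refine (FPN.length (flatMapRange (h := fun x i => if h x i = true then [true] else []) hn
    (.cond hh (.const _) (.const _)))).of_eq fun x => ?_
  rw [List.countP_eq_length_filter]
  induction List.range (n x) with
  | nil => rfl
  | cons a l ih =>
    rw [List.flatMap_cons, List.length_append, ih, List.filter_cons]
    by_cases c : h x a = true
    · simp [c]; omega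
    · simp [c]

end FP

end Pool.Agent.Lib.MP_634427_lc.Cobham
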