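import Pool.Agent.Lib.MP_634427_lc.Cobham.Moebius

set_option autoImplicit false

/-! # Greedy families and pruning with errors -/

namespace Pool.Agent.Lib.MP_634427_lc.Cobham

open Pool.Agent.Lib.MP_634427_lc.Cobham.PolyRed

/-- greedy family of nodes whose lists `K u` are disjoint from those of the earlier members -/
def greedy (K : Str → List Str) (l : List Str) : List Str :=
  l.foldl (fun D u => if (K u).all (fun s => !decide (s ∈ D.flatMap K)) = true then D ++ [u]
    else D) []

lemma greedy_snoc (K : Str → List Str) (l : List Str) (u : Str) :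
    greedy K (l ++ [u]) = if (K u).all (fun s => !decide (s ∈ (greedy K l).flatMap K)) = true then
      greedy K l ++ [u] else greedy K l := by
  rw [greedy, List.foldl_append]
  rfl

lemma greedy_sublist (K : Str → List Str) (l : List Str) : (greedy K l).Sublist l := by
  induction l using List.reverseRecOn with
  | nil => exact List.Sublist.refl _
  | append_singleton l u ih =>
    rw [greedy_snoc]
    split_ifs
    · exact List.Sublist.append_right ih _
    · exact ih.trans (List.sublist_append_left _ _)

lemma greedy_disj (K : Str → List Str) (l : List Str) :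
    (greedy K l).Pairwise fun u v => ∀ s ∈ K u, s ∉ K v := by
  induction l using List.reverseRecOn with
  | nil => exact List.Pairwise.nil
  | append_singleton l u ih =>
    rw [greedy_snoc]
    split_ifs with c
    · rw [List.pairwise_append]
      refine ⟨ih, List.pairwise_singleton _ _, ?_⟩
      intro v hv w hw s hs hs'
      rw [List.mem_singleton.1 hw] at hs'
      rw [List.all_eq_true] at c
      have := c s hs'
      simp only [Bool.not_eq_true', decide_eq_false_iff_not, List.mem_flatMap] at this
      exact this ⟨v, hv, hs⟩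
    · exact ih

lemma greedy_max (K : Str → List Str) (l : List Str) :
    ∀ u ∈ l, K u = [] ∨ ∃ s ∈ K u, s ∈ (greedy K l).flatMap K := by
  induction l using List.reverseRecOn with
  | nil => simp
  | append_singleton l u ih =>
    intro v hv
    rw [greedy_snoc]
    rcases List.mem_append.1 hv with hv | hv
    · rcases ih v hv with h | ⟨s, hs, hs'⟩
      · exact Or.inl h
      · refine Or.inr ⟨s, hs, ?_⟩
        split_ifs
        · rw [List.flatMap_append]
          exact List.mem_append_left _ hs'
        · exact hs'
    · rw [List.mem_singleton.1 hv]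
      split_ifs with c
      · cases h : K u with
        | nil => exact Or.inl rfl
        | cons a m =>
          refine Or.inr ⟨a, List.mem_cons_self, ?_⟩
          rw [List.flatMap_append]
          refine List.mem_append_right _ (List.mem_flatMap.2 ⟨u, List.mem_singleton.2 rfl, ?_⟩)
          rw [h]
          exact List.mem_cons_self
      · rw [List.all_eq_true] at c
        push Not at c
        obtain ⟨s, hs, hs'⟩ := c
        refine Or.inr ⟨s, hs, ?_⟩
        simpa using hs'

lemma greedy_all (K : Str → List Str) (l : List Str) (h : ∀ u ∈ l, K u = []) :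
    greedy K l = l := by
  induction l using List.reverseRecOn with
  | nil => rfl
  | append_singleton l u ih =>
    rw [greedy_snoc, ih fun v hv => h v (List.mem_append_left _ hv),
      h u (List.mem_append_right _ (List.mem_singleton.2 rfl))]
    simp

/-- disjoint lists that meet a set with at most `p` elements -/
lemma length_le_of_meet {K : Str → List Str} {D : List Str} {A : Set Str} {p : ℕ}
    (hA : ∀ B : Finset Str, (∀ s ∈ B, s ∈ A) → B.card ≤ p)
    (hD : D.Pairwise fun u v => ∀ s ∈ K u, s ∉ K v) (h : ∀ u ∈ D, ∃ s ∈ K u, s ∈ A) :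
    D.length ≤ p := by
  classical
  have h' : ∀ u : Str, ∃ s : Str, u ∈ D → s ∈ K u ∧ s ∈ A := by
    intro u
    by_cases hu : u ∈ D
    · obtain ⟨s, hs, hs'⟩ := h u hu
      exact ⟨s, fun _ => ⟨hs, hs'⟩⟩
    · exact ⟨u, fun h => absurd h hu⟩
  choose f hf using h'
  have hnd : (D.map f).Nodup := by
    rw [List.Nodup, List.pairwise_map]
    refine hD.imp_of_mem ?_
    intro u v hu hv huv he
    exact huv (f u) (hf u hu).1 (he ▸ (hf v hv).1)
  rw [← List.length_map (f := f), ← List.toFinset_card_of_nodup hnd]
  refine hA _ ?_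
  intro s hs
  rw [List.mem_toFinset, List.mem_map] at hs
  obtain ⟨u, hu, rfl⟩ := hs
  exact (hf u hu).2

lemma countP_range (n : ℕ) (c : ℕ → Bool) :
    (List.range n).countP c = ((Finset.range n).filter fun a => c a = true).card := by
  rw [List.countP_eq_length_filter, ← List.toFinset_card_of_nodup
    ((List.nodup_range (n := n)).filter _)]
  congr 1
  ext a
  simp

section chunk

variable (V : Str → List (Fin 2)) (Δ p : ℕ) (D : List Str)

/-- number of chunks -/
def gsz : ℕ := (Δ + 1) * p + 1

/-- a chunk: one node from each slot -/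
def chunk (a : ℕ) : List Str := (List.range (Δ + 1)).map fun j => D.getD (j * gsz Δ p + a) []

/-- in how many chunks is the node of the given slot pruned? -/
def cnt (j : ℕ) : ℕ := (List.range (gsz Δ p)).countP fun a =>
  !decide (D.getD (j * gsz Δ p + a) [] ∈ lprune V (chunk Δ p D a))

/-- the last nodes of the slots whose nodes are pruned in more than `p` chunks -/
def worst : List Str := (List.range (Δ + 1)).flatMap fun j =>
  if decide (p < cnt V Δ p D j) = true then [D.getD (j * gsz Δ p + (gsz Δ p - 1)) []] else []

variable {V Δ p D}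

lemma pos_lt (hD : (Δ + 1) * gsz Δ p ≤ D.length) {j a : ℕ} (hj : j < Δ + 1) (ha : a < gsz Δ p) :
    j * gsz Δ p + a < D.length := by
  have h1 : (j + 1) * gsz Δ p ≤ (Δ + 1) * gsz Δ p := Nat.mul_le_mul_right _ hj
  rw [add_mul, one_mul] at h1
  omega

lemma worst_ne_nil (hV : ∀ u, (V u).length = Δ) (hD : (Δ + 1) * gsz Δ p ≤ D.length)
    (hnd : D.Nodup) : worst V Δ p D ≠ [] := by
  have h1 : ∀ a : ℕ, ∃ j, a < gsz Δ p → j < Δ + 1 ∧
      D.getD (j * gsz Δ p + a) [] ∉ lprune V (chunk Δ p D a) := by
    intro a
    by_cases ha : a < gsz Δ p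
    swap
    · exact ⟨0, fun h => absurd h ha⟩
    by_contra hc
    push Not at hc
    have h2 : ∀ j < Δ + 1, D.getD (j * gsz Δ p + a) [] ∈ lprune V (chunk Δ p D a) := by
      intro j hj
      exact (hc j).2 hj
    have h3 : (chunk Δ p D a).Nodup := by
      refine List.Nodup.map_on ?_ List.nodup_range
      intro i hi j hj hij
      rw [List.mem_range] at hi hj
      rw [List.getD_eq_getElem _ _ (pos_lt hD hi ha), List.getD_eq_getElem _ _ (pos_lt hD hj ha)]
        at hij
      have h4 := (List.Nodup.getElem_inj_iff hnd).1 hij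
      have h5 : i * gsz Δ p = j * gsz Δ p := by omega
      exact Nat.eq_of_mul_eq_mul_right (by unfold gsz; omega) h5
    have h6 : (chunk Δ p D a) ⊆ lprune V (chunk Δ p D a) := by
      intro s hs
      obtain ⟨j, hj, rfl⟩ := List.mem_map.1 hs
      exact h2 j (List.mem_range.1 hj)
    have h7 := (List.subperm_of_subset h3 h6).length_le
    have h8 := lprune_length V hV (chunk Δ p D a)
    have h9 : (chunk Δ p D a).length = Δ + 1 := by simp [chunk]
    omega
  choose f hf using h1
  obtain ⟨j, hj, hlt⟩ := Finset.exists_lt_card_fiber_of_mul_lt_card_of_maps_to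
    (s := Finset.range (gsz Δ p)) (t := Finset.range (Δ + 1)) (f := f) (n := p)
    (fun a ha => Finset.mem_range.2 (hf a (Finset.mem_range.1 ha)).1)
    (by rw [Finset.card_range, Finset.card_range]; unfold gsz; omega)
  intro h0
  rw [worst, List.flatMap_eq_nil_iff] at h0
  have h1 := h0 j (List.mem_range.2 (Finset.mem_range.1 hj))
  rw [if_pos] at h1
  · exact absurd h1 (by simp)
  · rw [decide_eq_true_iff, cnt, countP_range]
    refine hlt.trans_le (Finset.card_le_card ?_)
    intro a ha
    rw [Finset.mem_filter] at ha ⊢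
    refine ⟨ha.1, ?_⟩
    have := (hf a (Finset.mem_range.1 ha.1)).2
    rw [ha.2] at this
    simpa using this

lemma mem_of_mem_worst (hD : (Δ + 1) * gsz Δ p ≤ D.length) {t : Str}
    (ht : t ∈ worst V Δ p D) : t ∈ D := by
  rw [worst, List.mem_flatMap] at ht
  obtain ⟨j, hj, ht⟩ := ht
  split_ifs at ht with c
  · rw [List.mem_singleton] at ht
    rw [ht, List.getD_eq_getElem _ _ (pos_lt hD (List.mem_range.1 hj) (by unfold gsz; omega))]
    exact List.getElem_mem _
  · simp at ht

lemma lprune_keep' (V : Str → List (Fin 2)) {n : ℕ} (hV : ∀ u, (V u).length = n)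
    (τ : ℕ → ZMod 2) (E : List Str) (j : ℕ) (hj : j < E.length)
    (h1 : ∀ i (hi : i < E.length), i ≤ j → dot τ (V E[i]) = 1)
    (h2 : ∀ i (hi : i < E.length), j < i → dot τ (V E[i]) = 0) : E[j] ∈ lprune V E := by
  have e : E = E.take j ++ E[j] :: E.drop (j + 1) := by
    rw [List.getElem_cons_drop, List.take_append_drop]
  have key := lprune_keep V hV τ (E.take j) (E.drop (j + 1)) E[j] (h1 j hj le_rfl) (by
    intro u hu
    obtain ⟨i, hi, rfl⟩ := List.getElem_of_mem hu
    rw [List.length_take] at hi
    rw [List.getElem_take]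
    exact h1 i _ (by omega)) (by
    intro u hu
    obtain ⟨i, hi, rfl⟩ := List.getElem_of_mem hu
    rw [List.length_drop] at hi
    rw [List.getElem_drop]
    exact h2 _ _ (by omega))
  rwa [← e] at key

/-- the threshold is never among the worst nodes if the rows are wrong at few nodes only -/
lemma not_mem_worst (hV : ∀ u, (V u).length = Δ) (hD : (Δ + 1) * gsz Δ p ≤ D.length)
    (hsort : D.Pairwise fun u v => val u < val v) (τ : ℕ → ZMod 2) {t : Str} {K : Str → List Str}
    {A : Set Str} (hA : ∀ B : Finset Str, (∀ s ∈ B, s ∈ A) → B.card ≤ p)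
    (hdisj : D.Pairwise fun u v => ∀ s ∈ K u, s ∉ K v)
    (hτ : ∀ u ∈ D, (∀ s ∈ K u, s ∉ A) → dot τ (V u) = if val u ≤ val t then 1 else 0) :
    t ∉ worst V Δ p D := by
  classical
  intro ht
  rw [worst, List.mem_flatMap] at ht
  obtain ⟨j, hj, ht⟩ := ht
  rw [List.mem_range] at hj
  split_ifs at ht with c
  swap
  · simp at ht
  rw [List.mem_singleton] at ht
  rw [decide_eq_true_iff, cnt, countP_range] at c
  refine absurd c (not_lt.2 ?_)
  have hgp : 0 < gsz Δ p := by unfold gsz; omega
  have hpt := pos_lt hD hj (show gsz Δ p - 1 < gsz Δ p by omega)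
  rw [List.getD_eq_getElem _ _ hpt] at ht
  have hmono : ∀ i (hi : i < D.length), (val D[i] ≤ val t ↔ i ≤ j * gsz Δ p + (gsz Δ p - 1)) := by
    intro i hi
    rw [List.pairwise_iff_getElem] at hsort
    rw [ht]
    constructor
    · intro h
      by_contra hlt
      push Not at hlt
      have := hsort _ _ hpt hi hlt
      omega
    · intro h
      rcases h.eq_or_lt with h | h
      · subst h
        exact le_rfl
      · exact (hsort _ _ hi hpt h).le
  -- a wrong chunk contains a node whose list meets `A`
  have h2 : ∀ a : ℕ, ∃ q : Str × ℕ, (a < gsz Δ p ∧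
      D.getD (j * gsz Δ p + a) [] ∉ lprune V (chunk Δ p D a)) →
      q.2 < Δ + 1 ∧ q.1 ∈ A ∧ q.1 ∈ K (D.getD (q.2 * gsz Δ p + a) []) := by
    intro a
    by_cases ha : (a < gsz Δ p ∧ D.getD (j * gsz Δ p + a) [] ∉ lprune V (chunk Δ p D a))
    swap
    · exact ⟨([], 0), fun h => absurd h ha⟩
    by_contra hc
    push Not at hc
    apply ha.2
    have hlen : (chunk Δ p D a).length = Δ + 1 := by simp [chunk]
    have hget : ∀ i (hi : i < (chunk Δ p D a).length),
        (chunk Δ p D a)[i] = D[i * gsz Δ p + a]'(pos_lt hD (by rwa [hlen] at hi) ha.1) := by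
      intro i hi
      simp only [chunk, List.getElem_map, List.getElem_range]
      rw [List.getD_eq_getElem]
    have hval : ∀ i (hi : i < (chunk Δ p D a).length),
        dot τ (V (chunk Δ p D a)[i]) = if i ≤ j then 1 else 0 := by
      intro i hi
      have hi' : i < Δ + 1 := by rwa [hlen] at hi
      have hp := pos_lt hD hi' ha.1
      rw [hget i hi, hτ _ (List.getElem_mem _)]
      · have h3 := hmono (i * gsz Δ p + a) hp
        have h4 : i * gsz Δ p + a ≤ j * gsz Δ p + (gsz Δ p - 1) ↔ i ≤ j := by
          constructor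
          · intro h
            by_contra hlt
            push Not at hlt
            have : (j + 1) * gsz Δ p ≤ i * gsz Δ p := Nat.mul_le_mul_right _ hlt
            rw [add_mul, one_mul] at this
            omega
          · intro h
            have := Nat.mul_le_mul_right (gsz Δ p) h
            have := ha.1
            omega
        rw [h4] at h3
        by_cases c' : i ≤ j
        · rw [if_pos (h3.2 c'), if_pos c']
        · rw [if_neg (fun h => c' (h3.1 h)), if_neg c']
      · intro s hs hsA
        have := (hc (s, i)).2 hi' hsA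
        rw [List.getD_eq_getElem _ _ hp] at this
        exact this hs
    have hj' : j < (chunk Δ p D a).length := by rw [hlen]; exact hj
    have := lprune_keep' V hV τ (chunk Δ p D a) j hj'
      (fun i hi hij => by rw [hval i hi, if_pos hij])
      (fun i hi hij => by rw [hval i hi, if_neg (by omega)])
    rw [hget j hj'] at this
    rwa [List.getD_eq_getElem _ _ (pos_lt hD hj ha.1)]
  choose q hq using h2
  have h3 : (((Finset.range (gsz Δ p)).filter fun a => (!decide (D.getD (j * gsz Δ p + a) [] ∈
      lprune V (chunk Δ p D a))) = true).image fun a => (q a).1).card ≤ p := by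
    refine hA _ ?_
    intro s hs
    rw [Finset.mem_image] at hs
    obtain ⟨a, ha, rfl⟩ := hs
    rw [Finset.mem_filter, Finset.mem_range] at ha
    exact (hq a ⟨ha.1, by simpa using ha.2⟩).2.1
  rwa [Finset.card_image_of_injOn] at h3
  intro a ha b hb hab
  rw [Finset.mem_coe, Finset.mem_filter, Finset.mem_range] at ha hb
  dsimp only at hab
  obtain ⟨a1, a2, a3⟩ := hq a ⟨ha.1, by simpa using ha.2⟩
  obtain ⟨b1, b2, b3⟩ := hq b ⟨hb.1, by simpa using hb.2⟩
  rw [hab] at a3
  have pa := pos_lt hD a1 ha.1
  have pb := pos_lt hD b1 hb.1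
  rw [List.getD_eq_getElem _ _ pa] at a3
  rw [List.getD_eq_getElem _ _ pb] at b3
  rw [List.pairwise_iff_getElem] at hdisj
  have e : (q a).2 * gsz Δ p + a = (q b).2 * gsz Δ p + b := by
    by_contra hne
    rcases lt_or_gt_of_ne hne with h | h
    · exact hdisj _ _ pa pb h _ a3 b3
    · exact hdisj _ _ pb pa h _ b3 a3
  have e2 : ((q a).2 * gsz Δ p + a) % gsz Δ p = ((q b).2 * gsz Δ p + b) % gsz Δ p := by rw [e]
  rwa [Nat.mul_add_mod', Nat.mul_add_mod', Nat.mod_eq_of_lt ha.1, Nat.mod_eq_of_lt hb.1] at e2

end chunk

end Pool.Agent.Lib.MP_634427_lc.Cobham
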