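import Pool.Agent.Lib.MP_634427_lc.Cobham.Defs

set_option autoImplicit false

/-! # Left sets of NP languages and the pruned search for the largest witness -/

namespace Pool.Agent.Lib.MP_634427_lc.Cobham

/-- length of the witnesses -/
def plen (c : ℕ) (x : Str) : ℕ := x.length ^ c + c

lemma FPN_plen (c : ℕ) : FPN (plen c) := ((FPN.length .id).pow c).add (.const c)

/-- witness relation of the left set -/
def leftR (c : ℕ) (R : Str × Str → Bool) (p : Str × Str) : Bool :=
  R ((dec p.1).1, p.2.take (plen c (dec p.1).1)) &&
    leb (dec p.1).2 ((p.2.take (plen c (dec p.1).1)).take (dec p.1).2.length)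

/-- the left set of the language with witness relation `R` -/
def leftSet (c : ℕ) (R : Str × Str → Bool) : Set Str :=
  {w | ∃ y : Str, y.length = w.length ^ c + c ∧ leftR c R (w, y) = true}

lemma leftSet_inNP {c : ℕ} {R : Str × Str → Bool} (hR : FP R) : InNP (leftSet c R) := by
  refine ⟨c, leftR c R, ?_, fun x => Iff.rfl⟩
  have h1 : FP (fun p : Str × Str => dec p.1) := FP_dec.comp .fst
  have h2 : FP (fun p : Str × Str => p.2.take (plen c (dec p.1).1)) :=
    .take ((FPN_plen c).comp (.fst' h1)) .snd
  exact .and (.comp hR (.pair (.fst' h1) h2))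
    (.comp2 FP_leb (.snd' h1) (.take (.length (.snd' h1)) h2))

lemma mem_leftSet {c : ℕ} {R : Str × Str → Bool} {x u : Str} (hu : u.length ≤ plen c x) :
    enc x u ∈ leftSet c R ↔
      ∃ y : Str, y.length = plen c x ∧ R (x, y) = true ∧ val u ≤ val (y.take u.length) := by
  have hlen : plen c x ≤ (enc x u).length ^ c + c := by
    rw [length_enc, plen]
    have := Nat.pow_le_pow_left (show x.length ≤ 2 * x.length + u.length + 1 by omega) c
    omega
  constructor
  · rintro ⟨y, hy, hr⟩
    rw [leftR, dec_enc, Bool.and_eq_true] at hr
    dsimp only at hr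
    have hy' : (y.take (plen c x)).length = plen c x := by
      rw [List.length_take, hy]; omega
    refine ⟨_, hy', hr.1, ?_⟩
    rw [leb_iff] at hr
    · exact hr.2
    · rw [List.length_take, hy']; omega
  · rintro ⟨y, hy, hr, hv⟩
    refine ⟨y ++ List.replicate ((enc x u).length ^ c + c - plen c x) false, ?_, ?_⟩
    · rw [List.length_append, List.length_replicate, hy]; omega
    · have e : (y ++ List.replicate ((enc x u).length ^ c + c - plen c x) false).take (plen c x)
          = y := by rw [← hy, List.take_left]
      rw [leftR, dec_enc, Bool.and_eq_true]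
      dsimp only
      rw [e]
      refine ⟨hr, ?_⟩
      rw [leb_iff]
      · exact hv
      · rw [List.length_take, hy]; omega

/-- the children of a list of nodes -/
def children (l : List Str) : List Str := l.flatMap fun u => [u ++ [false], u ++ [true]]

lemma FP_children : FP children := by
  refine .flatMap (h := fun _ u => [u ++ [false], u ++ [true]]) .id ?_
  exact .cons' (.append .snd (.const _)) (.cons' (.append .snd (.const _)) (.const []))

lemma children_cons (u : Str) (l : List Str) :
    children (u :: l) = (u ++ [false]) :: (u ++ [true]) :: children l := rfl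

lemma mem_children {l : List Str} {v : Str} :
    v ∈ children l ↔ ∃ u ∈ l, ∃ b, v = u ++ [b] := by
  simp only [children, List.mem_flatMap, List.mem_cons, List.not_mem_nil, or_false]
  constructor
  · rintro ⟨u, hu, rfl | rfl⟩
    · exact ⟨u, hu, false, rfl⟩
    · exact ⟨u, hu, true, rfl⟩
  · rintro ⟨u, hu, b, rfl⟩
    cases b
    · exact ⟨u, hu, Or.inl rfl⟩
    · exact ⟨u, hu, Or.inr rfl⟩

lemma pairwise_children {l : List Str} (h : l.Pairwise fun u v => val u < val v) :
    (children l).Pairwise fun u v => val u < val v := by
  induction l with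
  | nil => exact List.Pairwise.nil
  | cons u l ih =>
    rw [List.pairwise_cons] at h
    rw [children_cons, List.pairwise_cons, List.pairwise_cons]
    refine ⟨?_, ?_, ih h.2⟩
    · intro v hv
      rcases List.mem_cons.1 hv with rfl | hv
      · rw [val_snoc, val_snoc]; simp
      · obtain ⟨w, hw, b, rfl⟩ := mem_children.1 hv
        have := h.1 w hw
        rw [val_snoc, val_snoc]
        cases b <;> simp <;> omega
    · intro v hv
      obtain ⟨w, hw, b, rfl⟩ := mem_children.1 hv
      have := h.1 w hw
      rw [val_snoc, val_snoc]
      cases b <;> simp <;> omega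

/-- Pruned search: if the nodes at each level can be pruned to polynomially many nodes without
losing the last true node, then the language is in P. -/
theorem inP_of_prune' {L : Set Str} {c : ℕ} {R : Str × Str → Bool} (hR : FP R)
    (hL : ∀ x, x ∈ L ↔ ∃ y : Str, y.length = x.length ^ c + c ∧ R (x, y) = true)
    {prune : Str → List Str → List Str} (hp : FP (fun p : Str × List Str => prune p.1 p.2))
    (hsub : ∀ x l, (prune x l).Sublist l) {B : Str → ℕ} (hB : PB B)
    (hlen : ∀ x l, l.Pairwise (fun u v => val u < val v) → (prune x l).length ≤ B x)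
    (hkeep : ∀ x l t, t ∈ l → l.Pairwise (fun u v => val u < val v) →
      (∀ u ∈ l, u.length = t.length) → t.length ≤ plen c x →
      (∀ u ∈ l, enc x u ∈ leftSet c R ↔ val u ≤ val t) → t ∈ prune x l) : InP L := by
  set h : Str → List Str → List Str := fun x l => prune x (children l) with hh
  have hinv : ∀ x i, ((h x)^[i] [[]]).Pairwise (fun u v => val u < val v) ∧
      (∀ u ∈ (h x)^[i] [[]], u.length = i) ∧ ((h x)^[i] [[]]).length ≤ B x + 1 := by
    intro x i
    induction i with
    | zero =>
      refine ⟨by simp, ?_, by simp⟩
      intro u hu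
      simp only [Function.iterate_zero, id, List.mem_singleton] at hu
      simp [hu]
    | succ i ih =>
      rw [Function.iterate_succ_apply']
      refine ⟨(pairwise_children ih.1).sublist (hsub _ _), ?_,
        (hlen _ _ (pairwise_children ih.1)).trans (by omega)⟩
      intro u hu
      obtain ⟨v, hv, b, rfl⟩ := mem_children.1 ((hsub _ _).subset hu)
      simp [ih.2.1 v hv]
  refine ⟨fun x => ((h x)^[plen c x] [[]]).any fun u => R (x, u), ?_, ?_⟩
  · refine .any (h := fun x u => R (x, u)) ?_ hR
    refine .iterate (h := h) (B := fun x => (B x + 1) * (2 * plen c x + 2) + 1) (FPN_plen c)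
      (.const _) (.comp2 hp .fst (FP_children.comp .snd)) ?_ ?_
    · exact ((hB.add (PB.const 1)).mul (((PB.const 2).mul (FPN_plen c).bound).add
        (PB.const 2))).add (PB.const 1)
    · intro x i hi
      obtain ⟨-, h2, h3⟩ := hinv x i
      refine (size_list_le _ (2 * plen c x + 1) ?_).trans ?_
      · intro u hu
        rw [size_str, h2 u hu]
        omega
      · exact Nat.add_le_add_right (Nat.mul_le_mul_right (2 * plen c x + 1 + 1) h3) 1
  · intro x
    rw [hL, List.any_eq_true]
    constructor
    · rintro hex
      obtain ⟨y, ⟨hy, hry⟩, hmax⟩ : ∃ y : Str, (y.length = x.length ^ c + c ∧ R (x, y) = true) ∧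
          ∀ z : Str, z.length = x.length ^ c + c → R (x, z) = true → val z ≤ val y := by
        set P : ℕ → Prop := fun v => ∃ y : Str, y.length = x.length ^ c + c ∧ R (x, y) = true ∧
          val y = v with hP
        classical
        obtain ⟨y0, hy0, hr0⟩ := hex
        have hb : ∀ v, P v → v ≤ 2 ^ (x.length ^ c + c) := by
          rintro v ⟨y, hy, -, rfl⟩
          have := val_lt y
          rw [hy] at this
          exact this.le
        have h1 : P (Nat.findGreatest P (2 ^ (x.length ^ c + c))) :=
          Nat.findGreatest_spec (hb _ ⟨y0, hy0, hr0, rfl⟩) ⟨y0, hy0, hr0, rfl⟩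
        obtain ⟨y, hy, hr, hv⟩ := h1
        refine ⟨y, ⟨hy, hr⟩, fun z hz hrz => ?_⟩
        rw [hv]
        exact Nat.le_findGreatest (hb _ ⟨z, hz, hrz, rfl⟩) ⟨z, hz, hrz, rfl⟩
      have hmem : ∀ i, i ≤ plen c x → y.take i ∈ (h x)^[i] [[]] := by
        intro i
        induction i with
        | zero => intro _; simp
        | succ i ih =>
          intro hi
          rw [Function.iterate_succ_apply']
          have hyl : i < y.length := by rw [hy]; exact hi
          have e : y.take (i + 1) = y.take i ++ [y[i]] := by
            rw [List.take_succ_eq_append_getElem hyl]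
          have hch : y.take (i + 1) ∈ children ((h x)^[i] [[]]) :=
            mem_children.2 ⟨_, ih (by omega), _, e⟩
          have htl : (y.take (i + 1)).length = i + 1 := by
            rw [List.length_take, hy]
            unfold plen at hi
            omega
          have hul : ∀ u ∈ children ((h x)^[i] [[]]), u.length = i + 1 := by
            intro u hu
            obtain ⟨v, hv, b, rfl⟩ := mem_children.1 hu
            simp [(hinv x i).2.1 v hv]
          refine hkeep x _ _ hch (pairwise_children (hinv x i).1) ?_ (by rw [htl]; exact hi) ?_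
          · intro u hu
            rw [htl, hul u hu]
          · intro u hu
            rw [mem_leftSet (by rw [hul u hu]; exact hi), hul u hu]
            constructor
            · rintro ⟨z, hz, hrz, hv⟩
              exact hv.trans (val_take_mono (by rw [hz, hy]; rfl) (hmax z hz hrz) _)
            · intro hv
              exact ⟨y, hy, hry, hv⟩
      refine ⟨y, ?_, hry⟩
      have := hmem (plen c x) le_rfl
      rwa [List.take_of_length_le (by rw [hy]; rfl)] at this
    · rintro ⟨u, hu, hr⟩
      exact ⟨u, (hinv x _).2.1 u hu, hr⟩

/-- Pruned search, with a bound for all lists. -/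
theorem inP_of_prune {L : Set Str} {c : ℕ} {R : Str × Str → Bool} (hR : FP R)
    (hL : ∀ x, x ∈ L ↔ ∃ y : Str, y.length = x.length ^ c + c ∧ R (x, y) = true)
    {prune : Str → List Str → List Str} (hp : FP (fun p : Str × List Str => prune p.1 p.2))
    (hsub : ∀ x l, (prune x l).Sublist l) {B : Str → ℕ} (hB : PB B)
    (hlen : ∀ x l, (prune x l).length ≤ B x)
    (hkeep : ∀ x l t, t ∈ l → l.Pairwise (fun u v => val u < val v) →
      (∀ u ∈ l, u.length = t.length) → t.length ≤ plen c x →
      (∀ u ∈ l, enc x u ∈ leftSet c R ↔ val u ≤ val t) → t ∈ prune x l) : InP L :=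
  inP_of_prune' hR hL hp hsub hB (fun x l _ => hlen x l) hkeep

end Pool.Agent.Lib.MP_634427_lc.Cobham
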