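import Pool.Agent.Lib.MP_634427_lc.Cobham.LeftSet

set_option autoImplicit false

/-! # Pruning by linear algebra over a prime field -/

namespace Pool.Agent.Lib.MP_634427_lc.Cobham

namespace FP

variable {α β γ : Type} [Data α] [Data β] [Data γ]

theorem zipWith {f g : α → List β} {h : α → β → β → γ} (hf : FP f) (hg : FP g)
    (hh : FP (fun p : α × β × β => h p.1 p.2.1 p.2.2)) :
    FP (fun x => List.zipWith (h x) (f x) (g x)) := by
  have key : ∀ (k : β → β → γ) (l m : List β) (s : List γ),
      l.foldl (fun (s : List β × List γ) (b : β) => if s.1.isEmpty = true then s else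
        (s.1.tail, k b (s.1.headD b) :: s.2)) (m, s) =
      (m.drop l.length, (List.zipWith k l m).reverse ++ s) := by
    intro k l
    induction l with
    | nil => intro m s; simp
    | cons a l ih =>
      intro m s
      rw [List.foldl_cons]
      cases m with
      | nil =>
        simp only [List.isEmpty_nil, if_true]
        rw [ih]
        simp
      | cons b m =>
        simp only [List.isEmpty_cons, Bool.false_eq_true, if_false, List.tail_cons,
          List.headD_cons]
        rw [ih]
        simp
  obtain ⟨k, hk⟩ := hh.bound
  have h0 := foldl' (f := f) (g := fun x => (g x, ([] : List γ)))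
    (h := fun x (s : List β × List γ) (b : β) => if s.1.isEmpty = true then s else
        (s.1.tail, h x b (s.1.headD b) :: s.2)) hf (pair hg (.const []))
    (B := fun x => size (g x) + (size (f x) * ((size x + size (f x) + size (g x) + 2) ^ k + 1) + 1))
    (cond (isEmpty' (fst' (fst' (snd' .id)))) (fst' (snd' .id)) (pair (tail' (fst' (fst' (snd' .id))))
      (cons' (comp (g := fun p : α × β × β => h p.1 p.2.1 p.2.2) hh (pair (fst' .id)
        (pair (snd' (snd' .id)) (headD' (fst' (fst' (snd' .id))) (snd' (snd' .id))))))
        (snd' (fst' (snd' .id))))))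
    (hg.bound.add ((hf.bound.mul (((((PB.size.add hf.bound).add hg.bound).add
      (PB.const 2)).pow k).add (PB.const 1))).add (PB.const 1))) (by
      intro x l hl
      rw [key, List.append_nil]
      simp only [size_prod]
      refine Nat.add_le_add (size_drop _ _) ?_
      rw [size_reverse]
      refine (size_list_le _ ((size x + size (f x) + size (g x) + 2) ^ k) ?_).trans ?_
      · intro c hc
        obtain ⟨i, hi, rfl⟩ := List.getElem_of_mem hc
        rw [List.getElem_zipWith]
        refine (hk (x, _, _)).trans (Nat.pow_le_pow_left ?_ k)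
        have h1 := size_le_of_mem (hl.subset (List.getElem_mem (by
          rw [List.length_zipWith] at hi; omega : i < l.length)))
        have h2 := size_le_of_mem (List.getElem_mem (by
          rw [List.length_zipWith] at hi; omega : i < (g x).length))
        simp only [size_prod]
        omega
      · rw [List.length_zipWith]
        have h2 := hl.length_le
        have h3 := length_lt_size (f x)
        have : min l.length (g x).length ≤ size (f x) := by omega
        exact Nat.add_le_add_right (Nat.mul_le_mul_right _ this) 1)
  refine (reverse (snd' h0)).of_eq fun x => ?_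
  rw [key]
  simp

theorem takeWhile {f : α → List β} {h : α → β → Bool} (hf : FP f)
    (hh : FP (fun p : α × β => h p.1 p.2)) : FP (fun x => (f x).takeWhile (h x)) := by
  have key : ∀ (k : β → Bool) (l : List β) (s : Bool × List β),
      l.foldl (fun (s : Bool × List β) (b : β) =>
        if (s.1 && k b) = true then (true, b :: s.2) else (false, s.2)) s =
      (s.1 && l.all k, (if s.1 = true then l.takeWhile k else []).reverse ++ s.2) := by
    intro k l
    induction l with
    | nil => intro s; obtain ⟨s, m⟩ := s; cases s <;> simp
    | cons a l ih =>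
      intro s
      obtain ⟨s, m⟩ := s
      rw [List.foldl_cons, ih]
      cases s
      · simp
      · by_cases h : k a = true
        · simp [h]
        · simp [h]
  have h0 := foldl' (f := f) (g := fun x => (true, ([] : List β)))
    (h := fun x (s : Bool × List β) (b : β) =>
        if (s.1 && h x b) = true then (true, b :: s.2) else (false, s.2)) hf (.const _)
    (B := fun x => size (f x) + 1)
    (cond (and (fst' (fst' (snd' .id))) (comp2 hh (fst' .id) (snd' (snd' .id))))
      (pair (.const _) (cons' (snd' (snd' .id)) (snd' (fst' (snd' .id)))))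
      (pair (.const _) (snd' (fst' (snd' .id)))))
    (hf.bound.add (PB.const 1)) (by
      intro x l hl
      rw [key]
      simp only [if_true, List.append_nil, size_prod, size_bool, size_reverse]
      have := size_sublist ((l.takeWhile_sublist (p := h x)).trans hl.sublist)
      omega)
  refine (reverse (snd' h0)).of_eq fun x => ?_
  rw [key]
  simp

end FP

theorem FPN.findIdx {α β : Type} [Data α] [Data β] {f : α → List β} {h : α → β → Bool}
    (hf : FP f) (hh : FP (fun p : α × β => h p.1 p.2)) :
    FPN (fun x => (f x).findIdx (h x)) :=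
  (FPN.length (FP.takeWhile (h := fun x b => !h x b) hf (FP.not hh))).of_eq fun x => by
    induction f x with
    | nil => rfl
    | cons a l ih =>
      rw [List.findIdx_cons, List.takeWhile_cons]
      cases h x a <;> simp [ih]

section field

variable {q : ℕ} [hq : Fact q.Prime]

/-- the element of the prime field given by a data item -/
def toK (a : Fin q) : ZMod q := ((a : ℕ) : ZMod q)

/-- the data item for an element of the prime field -/
def ofK (z : ZMod q) : Fin q := ⟨z.val, ZMod.val_lt z⟩

@[simp] lemma toK_ofK (z : ZMod q) : toK (ofK z) = z := by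
  simp [toK, ofK]

/-- non-zero? -/
def nz (a : Fin q) : Bool := decide (toK a ≠ 0)

/-- a row: a vector and a number -/
abbrev Row (q : ℕ) : Type := List (Fin q) × Fin q

/-- value of the vector `v` at the position of the first non-zero entry of `b` -/
def pick (b v : List (Fin q)) : Fin q := v.getD (b.findIdx nz) (ofK 0)

/-- eliminate the leading position of the row `b` in the row `v` -/
def elim (b v : Row q) : Row q :=
  (List.zipWith (fun s t => ofK (toK s - toK (pick b.1 v.1) * toK t)) v.1 b.1,
    ofK (toK v.2 - toK (pick b.1 v.1) * toK b.2))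

/-- scale the leading entry to one -/
def normalize (r : Row q) : Row q :=
  (r.1.map (fun s => ofK (toK s * (toK (pick r.1 r.1))⁻¹)),
    ofK (toK r.2 * (toK (pick r.1 r.1))⁻¹))

/-- reduction by a list of rows -/
def reduce (basis : List (Row q)) (v : Row q) : Row q := basis.foldl (fun v b => elim b v) v

/-- the linear functional with coefficients `τ` -/
def dot (τ : ℕ → ZMod q) : List (Fin q) → ZMod q
  | [] => 0
  | a :: l => toK a * τ 0 + dot (fun n => τ (n + 1)) l

lemma FP_elim : FP (fun p : Row q × Row q => elim p.1 p.2) := by
  have hp : FP (fun p : Row q × Row q => pick p.1.1 p.2.1) :=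
    .getD (.fst' .snd) (FPN.findIdx (h := fun _ => nz) (.fst' .fst) (.comp (.table nz) .snd))
      (.const _)
  have ht : FP (fun p : Fin q × Fin q × Fin q => ofK (toK p.2.1 - toK p.1 * toK p.2.2)) := .table _
  refine .pair (.zipWith (h := fun p s t => ofK (toK s - toK (pick p.1.1 p.2.1) * toK t))
    (.fst' .snd) (.fst' .fst) ?_) ?_
  · exact .comp (g := fun p : Fin q × Fin q × Fin q => ofK (toK p.2.1 - toK p.1 * toK p.2.2)) ht
      (.pair (hp.comp .fst) (.pair (.fst' .snd) (.snd' .snd)))
  · exact .comp (g := fun p : Fin q × Fin q × Fin q => ofK (toK p.2.1 - toK p.1 * toK p.2.2)) ht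
      (.pair hp (.pair (.snd' .snd) (.snd' .fst)))

lemma FP_normalize : FP (normalize (q := q)) := by
  have hp : FP (fun p : Row q => pick p.1 p.1) :=
    .getD .fst (FPN.findIdx (h := fun _ => nz) .fst (.comp (.table nz) .snd)) (.const _)
  have ht : FP (fun p : Fin q × Fin q => ofK (toK p.2 * (toK p.1)⁻¹)) := .table _
  exact .pair (.map (h := fun p s => ofK (toK s * (toK (pick p.1 p.1))⁻¹)) .fst
    (.comp (g := fun p : Fin q × Fin q => ofK (toK p.2 * (toK p.1)⁻¹)) ht
      (.pair (hp.comp .fst) .snd)))
    (.comp (g := fun p : Fin q × Fin q => ofK (toK p.2 * (toK p.1)⁻¹)) ht (.pair hp .snd))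

lemma length_elim {b v : Row q} {D : ℕ} (hb : b.1.length = D) (hv : v.1.length = D) :
    (elim b v).1.length = D := by
  simp [elim, hb, hv]

lemma length_normalize (r : Row q) : (normalize r).1.length = r.1.length := by
  simp [normalize]

lemma length_reduce {basis : List (Row q)} {v : Row q} {D : ℕ}
    (hb : ∀ b ∈ basis, b.1.length = D) (hv : v.1.length = D) :
    (reduce basis v).1.length = D := by
  induction basis generalizing v with
  | nil => exact hv
  | cons b l ih =>
    exact ih (fun b' hb' => hb b' (List.mem_cons_of_mem _ hb'))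
      (length_elim (hb b List.mem_cons_self) hv)

lemma dot_zip (τ : ℕ → ZMod q) (a : ZMod q) {v b : List (Fin q)} (h : v.length = b.length) :
    dot τ (List.zipWith (fun s t => ofK (toK s - a * toK t)) v b) = dot τ v - a * dot τ b := by
  induction v generalizing b τ with
  | nil =>
    cases b with
    | nil => simp [dot]
    | cons c b => simp at h
  | cons s v ih =>
    cases b with
    | nil => simp at h
    | cons t b =>
      rw [List.zipWith_cons_cons, dot, dot, dot, ih _ (by simpa using h), toK_ofK]
      ring

lemma dot_map (τ : ℕ → ZMod q) (a : ZMod q) (v : List (Fin q)) :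
    dot τ (v.map fun s => ofK (toK s * a)) = dot τ v * a := by
  induction v generalizing τ with
  | nil => simp [dot]
  | cons s v ih =>
    rw [List.map_cons, dot, dot, ih, toK_ofK]
    ring

lemma dot_zero (τ : ℕ → ZMod q) {v : List (Fin q)} (h : v.all (fun a => !nz a) = true) :
    dot τ v = 0 := by
  induction v generalizing τ with
  | nil => rfl
  | cons s v ih =>
    rw [List.all_cons, Bool.and_eq_true] at h
    rw [dot, ih _ h.2]
    have : toK s = 0 := by simpa [nz] using h.1
    rw [this]
    ring

/-- a good row: the functional takes the recorded value -/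
def Good (τ : ℕ → ZMod q) (r : Row q) : Prop := dot τ r.1 = toK r.2

lemma defect_elim {τ : ℕ → ZMod q} {b v : Row q} (hb : Good τ b)
    (h : v.1.length = b.1.length) :
    dot τ (elim b v).1 - toK (elim b v).2 = dot τ v.1 - toK v.2 := by
  rw [elim]
  dsimp only
  rw [dot_zip τ _ h, toK_ofK, hb]
  ring

lemma defect_reduce {τ : ℕ → ZMod q} {basis : List (Row q)} {v : Row q} {D : ℕ}
    (hg : ∀ b ∈ basis, Good τ b) (hb : ∀ b ∈ basis, b.1.length = D) (hv : v.1.length = D) :
    dot τ (reduce basis v).1 - toK (reduce basis v).2 = dot τ v.1 - toK v.2 := by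
  induction basis generalizing v with
  | nil => rfl
  | cons b l ih =>
    have h1 := hb b List.mem_cons_self
    have h2 := ih (v := elim b v) (fun b' hb' => hg b' (List.mem_cons_of_mem _ hb'))
      (fun b' hb' => hb b' (List.mem_cons_of_mem _ hb')) (length_elim h1 hv)
    change dot τ (reduce l (elim b v)).1 - toK (reduce l (elim b v)).2 = _
    rw [h2, defect_elim (hg b List.mem_cons_self) (hv.trans h1.symm)]

lemma good_normalize {τ : ℕ → ZMod q} {r : Row q} (h : Good τ r) : Good τ (normalize r) := by
  unfold Good at *
  rw [normalize]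
  dsimp only
  rw [dot_map, toK_ofK, h]

/-- entry of a vector -/
def ent (v : List (Fin q)) (i : ℕ) : ZMod q := toK (v.getD i (ofK 0))

lemma ent_of_le {v : List (Fin q)} {i : ℕ} (h : v.length ≤ i) : ent v i = 0 := by
  rw [ent, List.getD_eq_default _ _ h, toK_ofK]

lemma ent_elim {b v : Row q} (h : v.1.length = b.1.length) (i : ℕ) :
    ent (elim b v).1 i = ent v.1 i - ent v.1 (b.1.findIdx nz) * ent b.1 i := by
  by_cases hi : i < v.1.length
  · have hi' : i < b.1.length := h ▸ hi
    have hi2 : i < (elim b v).1.length := by
      rw [length_elim h.symm rfl]; exact hi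
    rw [ent, ent, ent, List.getD_eq_getElem _ _ hi2, List.getD_eq_getElem _ _ hi,
      ent, List.getD_eq_getElem _ _ hi']
    simp only [elim, List.getElem_zipWith, toK_ofK]
    rfl
  · push Not at hi
    have h2 : (elim b v).1.length ≤ i := by
      rw [length_elim h.symm rfl]; exact hi
    rw [ent_of_le h2, ent_of_le hi, ent_of_le (v := b.1) (i := i) (h ▸ hi)]
    ring

lemma ent_normalize (r : Row q) (i : ℕ) :
    ent (normalize r).1 i = ent r.1 i * (ent r.1 (r.1.findIdx nz))⁻¹ := by
  by_cases hi : i < r.1.length
  · have hi2 : i < (normalize r).1.length := by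
      rw [length_normalize]; exact hi
    rw [ent, ent, List.getD_eq_getElem _ _ hi2, List.getD_eq_getElem _ _ hi]
    simp only [normalize, List.getElem_map, toK_ofK]
    rfl
  · push Not at hi
    rw [ent_of_le (by rw [length_normalize]; exact hi), ent_of_le hi]
    ring

/-- the state invariant of the basis -/
structure Basis (D : ℕ) (basis : List (Row q)) : Prop where
  len : ∀ b ∈ basis, b.1.length = D
  lt : ∀ b ∈ basis, b.1.findIdx nz < D
  one : ∀ b ∈ basis, ent b.1 (b.1.findIdx nz) = 1
  tri : basis.Pairwise fun b b' => ent b'.1 (b.1.findIdx nz) = 0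

lemma ent_reduce_zero {D : ℕ} {basis : List (Row q)} {v : Row q} {i : ℕ}
    (hb : ∀ b ∈ basis, b.1.length = D) (hv : v.1.length = D) (h0 : ent v.1 i = 0)
    (hz : ∀ b ∈ basis, ent b.1 i = 0) : ent (reduce basis v).1 i = 0 := by
  induction basis generalizing v with
  | nil => exact h0
  | cons b l ih =>
    refine ih (v := elim b v) (fun b' hb' => hb b' (List.mem_cons_of_mem _ hb'))
      (length_elim (hb b List.mem_cons_self) hv) ?_ (fun b' hb' => hz b' (List.mem_cons_of_mem _ hb'))
    rw [ent_elim (hv.trans (hb b List.mem_cons_self).symm), h0, hz b List.mem_cons_self]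
    ring

lemma ent_reduce {D : ℕ} {basis : List (Row q)} (hB : Basis D basis) {v : Row q}
    (hv : v.1.length = D) {b : Row q} (hb : b ∈ basis) :
    ent (reduce basis v).1 (b.1.findIdx nz) = 0 := by
  obtain ⟨h1, -, h3, h4⟩ := hB
  induction basis generalizing v with
  | nil => simp at hb
  | cons c l ih =>
    rw [List.pairwise_cons] at h4
    have hc : (elim c v).1.length = D := length_elim (h1 c List.mem_cons_self) hv
    rcases List.mem_cons.1 hb with rfl | hb
    · refine ent_reduce_zero (basis := l) (v := elim b v)
        (fun b' hb' => h1 b' (List.mem_cons_of_mem _ hb')) hc ?_ (fun b' hb' => h4.1 b' hb')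
      rw [ent_elim (hv.trans (h1 b List.mem_cons_self).symm), h3 b List.mem_cons_self]
      ring
    · exact ih hc hb (fun b' hb' => h1 b' (List.mem_cons_of_mem _ hb'))
        (fun b' hb' => h3 b' (List.mem_cons_of_mem _ hb')) h4.2

lemma findIdx_nz {r : List (Fin q)} (h : r.all (fun a => !nz a) = false) :
    r.findIdx nz < r.length ∧ ent r (r.findIdx nz) ≠ 0 := by
  have h1 : r.findIdx nz < r.length := by
    rw [List.findIdx_lt_length]
    by_contra hc
    push Not at hc
    rw [← Bool.not_eq_true, List.all_eq_true] at h
    exact h fun x hx => by simpa using hc x hx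
  refine ⟨h1, ?_⟩
  have h2 := List.findIdx_getElem (w := h1)
  rw [ent, List.getD_eq_getElem _ _ h1]
  simpa [nz] using h2

lemma findIdx_normalize {r : Row q} (h : ent r.1 (r.1.findIdx nz) ≠ 0) :
    (normalize r).1.findIdx nz = r.1.findIdx nz := by
  have : ∀ l : List (Fin q), (l.map fun s => ofK (toK s * (toK (pick r.1 r.1))⁻¹)).findIdx nz
      = l.findIdx nz := by
    intro l
    induction l with
    | nil => rfl
    | cons a l ih =>
      rw [List.map_cons, List.findIdx_cons, List.findIdx_cons, ih]
      have e : nz (ofK (toK a * (toK (pick r.1 r.1))⁻¹)) = nz a := by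
        rw [nz, nz, toK_ofK]
        have : (toK (pick r.1 r.1))⁻¹ ≠ 0 := inv_ne_zero h
        simp [this]
      rw [e]
  exact this _

lemma Basis.snoc {D : ℕ} {basis : List (Row q)} (hB : Basis D basis) {v : Row q}
    (hv : v.1.length = D) (h : (reduce basis v).1.all (fun a => !nz a) = false) :
    Basis D (basis ++ [normalize (reduce basis v)]) := by
  have hl := length_reduce hB.len hv
  obtain ⟨h1, h2⟩ := findIdx_nz h
  have h3 := findIdx_normalize h2
  refine ⟨?_, ?_, ?_, ?_⟩
  · intro b hb
    rcases List.mem_append.1 hb with hb | hb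
    · exact hB.len b hb
    · rw [List.mem_singleton.1 hb, length_normalize, hl]
  · intro b hb
    rcases List.mem_append.1 hb with hb | hb
    · exact hB.lt b hb
    · rw [List.mem_singleton.1 hb, h3]
      rwa [hl] at h1
  · intro b hb
    rcases List.mem_append.1 hb with hb | hb
    · exact hB.one b hb
    · rw [List.mem_singleton.1 hb, h3, ent_normalize]
      exact mul_inv_cancel₀ h2
  · rw [List.pairwise_append]
    refine ⟨hB.tri, List.pairwise_singleton _ _, ?_⟩
    intro b hb b' hb'
    rw [List.mem_singleton.1 hb', ent_normalize, ent_reduce hB hv hb]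
    ring

lemma Basis.length_le {D : ℕ} {basis : List (Row q)} (hB : Basis D basis) :
    basis.length ≤ D := by
  have h1 : (basis.map fun b => b.1.findIdx nz).Nodup := by
    rw [List.Nodup, List.pairwise_map]
    refine hB.tri.imp_of_mem ?_
    intro b b' _ hb' h0 he
    have := hB.one b' hb'
    rw [← he, h0] at this
    exact zero_ne_one this
  have h2 : (basis.map fun b => b.1.findIdx nz).toFinset ⊆ Finset.range D := by
    intro i hi
    rw [List.mem_toFinset, List.mem_map] at hi
    obtain ⟨b, hb, rfl⟩ := hi
    exact Finset.mem_range.2 (hB.lt b hb)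
  have h3 := Finset.card_le_card h2
  rwa [List.toFinset_card_of_nodup h1, List.length_map, Finset.card_range] at h3

/-- a step of the pruning procedure -/
def pstep (V : Str → List (Fin q)) (s : Bool × List Str × List (Row q)) (u : Str) :
    Bool × List Str × List (Row q) :=
  if s.1 = true then s
  else if (reduce s.2.2 (V u, ofK 1)).1.all (fun a => !nz a) = true then
    (if nz (reduce s.2.2 (V u, ofK 1)).2 = true then (true, s.2)
      else (false, u :: s.2.1.tail, s.2.2))
  else (false, u :: s.2.1, s.2.2 ++ [normalize (reduce s.2.2 (V u, ofK 1))])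

/-- pruning: keeps at most as many nodes as there are coordinates -/
def lprune (V : Str → List (Fin q)) (l : List Str) : List Str :=
  (l.foldl (pstep V) (false, [], [])).2.1.reverse

lemma lprune_inv (V : Str → List (Fin q)) {D : ℕ} (hV : ∀ u, (V u).length = D) (l : List Str) :
    ((l.foldl (pstep V) (false, [], [])).2.1.reverse).Sublist l ∧
      Basis D (l.foldl (pstep V) (false, [], [])).2.2 ∧
      (l.foldl (pstep V) (false, [], [])).2.1.length =
        (l.foldl (pstep V) (false, [], [])).2.2.length := by
  induction l using List.reverseRecOn with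
  | nil => exact ⟨List.Sublist.refl _, ⟨by simp, by simp, by simp, List.Pairwise.nil⟩, rfl⟩
  | append_singleton l u ih =>
    rw [List.foldl_append, List.foldl_cons, List.foldl_nil]
    obtain ⟨h1, h2, h3⟩ := ih
    generalize l.foldl (pstep V) (false, [], []) = s at *
    obtain ⟨s0, acc, basis⟩ := s
    dsimp only at h1 h2 h3
    unfold pstep
    dsimp only
    split_ifs with c1 c2 c3
    · exact ⟨h1.trans (List.sublist_append_left _ _), h2, h3⟩
    · exact ⟨h1.trans (List.sublist_append_left _ _), h2, h3⟩
    · refine ⟨?_, h2, ?_⟩
      · dsimp only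
        rw [List.reverse_cons]
        refine List.Sublist.append_right ?_ _
        refine List.Sublist.trans ?_ h1
        exact List.Sublist.reverse (List.tail_sublist _)
      · dsimp only
        cases acc with
        | cons a acc => simpa using h3
        | nil =>
          have hb : basis = [] := by
            rw [← List.length_eq_zero_iff, ← h3]; rfl
          subst hb
          exfalso
          apply c3
          simp [reduce, nz]
    · refine ⟨?_, h2.snoc (by simp [hV]) (by simpa using c2), ?_⟩
      · dsimp only
        rw [List.reverse_cons]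
        exact List.Sublist.append_right h1 _
      · simp [h3]

lemma lprune_sublist (V : Str → List (Fin q)) {D : ℕ} (hV : ∀ u, (V u).length = D) (l : List Str) :
    (lprune V l).Sublist l := (lprune_inv V hV l).1

lemma lprune_length (V : Str → List (Fin q)) {D : ℕ} (hV : ∀ u, (V u).length = D) (l : List Str) :
    (lprune V l).length ≤ D := by
  obtain ⟨-, h2, h3⟩ := lprune_inv V hV l
  rw [lprune, List.length_reverse, h3]
  exact h2.length_le

lemma lprune_keep (V : Str → List (Fin q)) {D : ℕ} (hV : ∀ u, (V u).length = D)
    (τ : ℕ → ZMod q) (l1 l2 : List Str) (t : Str) (ht : dot τ (V t) = 1)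
    (h1 : ∀ u ∈ l1, dot τ (V u) = 1) (h2 : ∀ u ∈ l2, dot τ (V u) = 0) :
    t ∈ lprune V (l1 ++ t :: l2) := by
  have true_step : ∀ (s : Bool × List Str × List (Row q)) (u : Str), dot τ (V u) = 1 →
      s.1 = false → (∀ b ∈ s.2.2, Good τ b) → (∀ b ∈ s.2.2, b.1.length = D) →
      (pstep V s u).1 = false ∧ (∀ b ∈ (pstep V s u).2.2, Good τ b) ∧
        (∀ b ∈ (pstep V s u).2.2, b.1.length = D) ∧
        ∃ acc, (pstep V s u).2.1 = u :: acc := by
    rintro ⟨s0, acc, basis⟩ u hu hs hg hl
    dsimp only at hs hg hl
    subst hs
    have hd := defect_reduce (v := (V u, ofK 1)) hg hl (hV u)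
    have hgr : Good τ (reduce basis (V u, ofK 1)) := by
      dsimp only at hd
      rw [hu, toK_ofK, sub_self, sub_eq_zero] at hd
      exact hd
    unfold pstep
    dsimp only
    simp only [Bool.false_eq_true, if_false]
    split_ifs with c2 c3
    · exfalso
      rw [Good, dot_zero τ c2] at hgr
      simp [nz, ← hgr] at c3
    · exact ⟨rfl, hg, hl, _, rfl⟩
    · refine ⟨rfl, ?_, ?_, _, rfl⟩
      · intro b hb
        rcases List.mem_append.1 hb with hb | hb
        · exact hg b hb
        · rw [List.mem_singleton.1 hb]
          exact good_normalize hgr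
      · intro b hb
        rcases List.mem_append.1 hb with hb | hb
        · exact hl b hb
        · rw [List.mem_singleton.1 hb, length_normalize]
          exact length_reduce hl (hV u)
  have phase1 : ∀ (l : List Str) (s : Bool × List Str × List (Row q)),
      (∀ u ∈ l, dot τ (V u) = 1) → s.1 = false → (∀ b ∈ s.2.2, Good τ b) →
      (∀ b ∈ s.2.2, b.1.length = D) →
      (l.foldl (pstep V) s).1 = false ∧ (∀ b ∈ (l.foldl (pstep V) s).2.2, Good τ b) ∧
        (∀ b ∈ (l.foldl (pstep V) s).2.2, b.1.length = D) := by
    intro l
    induction l with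
    | nil => intro s _ h1 h2 h3; exact ⟨h1, h2, h3⟩
    | cons u l ih =>
      intro s hu h1 h2 h3
      obtain ⟨e1, e2, e3, -⟩ := true_step s u (hu u List.mem_cons_self) h1 h2 h3
      exact ih _ (fun v hv => hu v (List.mem_cons_of_mem _ hv)) e1 e2 e3
  have phase3 : ∀ (l : List Str) (s : Bool × List Str × List (Row q)),
      (s.1 = true ∧ t ∈ s.2.1) ∨ t ∈ s.2.1.tail → t ∈ (l.foldl (pstep V) s).2.1 := by
    intro l
    induction l with
    | nil =>
      rintro s (⟨-, h⟩ | h)
      · exact h
      · exact List.mem_of_mem_tail h
    | cons u l ih =>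
      rintro s h
      rw [List.foldl_cons]
      apply ih
      unfold pstep
      rcases h with ⟨hs, h⟩ | h
      · rw [if_pos hs]
        exact Or.inl ⟨hs, h⟩
      · split_ifs with c1 c2 c3
        · exact Or.inr h
        · exact Or.inl ⟨rfl, List.mem_of_mem_tail h⟩
        · exact Or.inr h
        · exact Or.inr (List.mem_of_mem_tail h)
  rw [lprune, List.mem_reverse, List.foldl_append, List.foldl_cons]
  obtain ⟨e1, e2, e3⟩ := phase1 l1 (false, [], []) h1 rfl (by simp) (by simp)
  obtain ⟨f1, f2, f3, acc, f4⟩ := true_step _ t ht e1 e2 e3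
  generalize pstep V (l1.foldl (pstep V) (false, [], [])) t = s at *
  cases l2 with
  | nil => rw [List.foldl_nil, f4]; exact List.mem_cons_self
  | cons u l2 =>
    rw [List.foldl_cons]
    apply phase3
    have hu := h2 u List.mem_cons_self
    have hd := defect_reduce (v := (V u, ofK 1)) f2 f3 (hV u)
    dsimp only at hd
    rw [hu, toK_ofK] at hd
    unfold pstep
    rw [f1]
    simp only [Bool.false_eq_true, if_false]
    split_ifs with c2 c3
    · left
      refine ⟨rfl, ?_⟩
      dsimp only
      rw [f4]
      exact List.mem_cons_self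
    · exfalso
      rw [dot_zero τ c2] at hd
      have : toK (reduce s.2.2 (V u, ofK 1)).2 = 1 := by linear_combination -hd
      apply c3
      rw [nz, this]
      simp
    · right
      dsimp only
      rw [f4]
      simp

omit hq in
lemma size_vec (v : List (Fin q)) : size v = 2 * v.length + 1 := by
  induction v with
  | nil => rfl
  | cons a v ih => simp only [size_cons, size_fin, ih, List.length_cons]; ring

omit hq in
lemma PB_fst {α β : Type} [Data α] [Data β] {f : α → ℕ} (hf : PB f) :
    PB (fun p : α × β => f p.1) :=
  PB.comp (g := f) (f := fun p : α × β => p.1) hf (PB.size.mono fun p => by simp)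

lemma FP_lprune {α : Type} [Data α] {V : α → Str → List (Fin q)} {D : α → ℕ}
    (hV : FP (fun p : α × Str => V p.1 p.2)) (hD : ∀ x u, (V x u).length = D x) :
    FP (fun p : α × List Str => lprune (V p.1) p.2) := by
  have hDB : PB D := by
    have h1 : FP (fun x : α => V x []) := .comp2 hV .id (.const _)
    exact h1.bound.mono fun x => by
      have := length_lt_size (V x [])
      rw [hD] at this
      exact this.le
  have hred : FP (fun p : List (Row q) × Row q => reduce p.1 p.2) := by
    have hb : FP (fun p : List (Row q) × Row q => p.1.foldl (fun v b => elim b v) p.2) := by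
      refine .foldl' (h := fun _ v b => elim b v) (B := fun p => size p) .fst .snd
        (.comp2 FP_elim (.snd' (.snd' .id)) (.fst' (.snd' .id))) PB.size ?_
      intro p l _
      have key : ∀ (l : List (Row q)) (v : Row q),
          size (l.foldl (fun v b => elim b v) v) ≤ size v := by
        intro l
        induction l with
        | nil => intro v; exact le_rfl
        | cons b l ih =>
          intro v
          refine (ih _).trans ?_
          simp only [size_prod, size_fin, size_vec, elim, List.length_zipWith]
          omega
      refine (key l _).trans ?_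
      simp
    exact hb
  have hrow : FP (fun p : (α × List Str) × (Bool × List Str × List (Row q)) × Str =>
      reduce p.2.1.2.2 (V p.1.1 p.2.2, ofK 1)) :=
    .comp2 hred (.snd' (.snd' (.fst' .snd)))
      (.pair (.comp2 hV (.fst' .fst) (.snd' .snd)) (.const _))
  have hnz : FP (nz (q := q)) := .table _
  refine .reverse (.fst' (.snd' (.foldl' (f := fun p : α × List Str => p.2)
    (g := fun _ => (false, ([] : List Str), ([] : List (Row q)))) (h := fun p s u => pstep (V p.1) s u)
    (B := fun p => 1 + size p + ((size p) * (2 * D p.1 + 3) + 1)) .snd (.const _) ?_ ?_ ?_)))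
  · unfold pstep
    refine .cond (.fst' (.fst' .snd)) (.fst' .snd) (.cond ?_ (.cond ?_ ?_ ?_) ?_)
    · exact .all (h := fun _ a => !nz a) (.fst' hrow) (.not (hnz.comp .snd))
    · exact hnz.comp (.snd' hrow)
    · exact .pair (.const _) (.snd' (.fst' .snd))
    · exact .pair (.const _) (.pair (.cons' (.snd' .snd) (.tail' (.fst' (.snd' (.fst' .snd)))))
        (.snd' (.snd' (.fst' .snd))))
    · exact .pair (.const _) (.pair (.cons' (.snd' .snd) (.fst' (.snd' (.fst' .snd))))
        (.append (.snd' (.snd' (.fst' .snd))) (.cons' (.comp FP_normalize hrow) (.const []))))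
  · exact ((PB.const 1).add PB.size).add ((PB.size.mul (((PB.const 2).mul (PB_fst hDB)).add
      (PB.const 3))).add (PB.const 1))
  · intro p l hl
    obtain ⟨h1, h2, h3⟩ := lprune_inv (V p.1) (hD p.1) l
    change size (l.foldl (pstep (V p.1)) (false, [], [])) ≤ _
    generalize l.foldl (pstep (V p.1)) (false, [], []) = s at *
    obtain ⟨s0, acc, basis⟩ := s
    dsimp only at h1 h2 h3
    have e1 : size acc ≤ size p.2 := by
      rw [← size_reverse]
      exact (size_sublist h1).trans (size_sublist hl.sublist)
    have e2 : size basis ≤ basis.length * (2 * D p.1 + 3) + 1 := by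
      refine (size_list_le basis (2 * D p.1 + 2) ?_)
      intro b hb
      rw [size_prod, size_fin, size_vec, h2.len b hb]
    have e3 : basis.length ≤ size p := by
      rw [← h3, ← List.length_reverse]
      have := h1.length_le
      have := hl.length_le
      have := length_lt_size p.2
      rw [size_prod]
      omega
    have e4 := Nat.mul_le_mul_right (2 * D p.1 + 3) e3
    simp only [size_prod, size_bool] at *
    omega

end field

end Pool.Agent.Lib.MP_634427_lc.Cobham
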