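import Pool.Agent.Lib.MP_634427_lc.Cobham.LinPrune

set_option autoImplicit false

/-! # Sets inside printable sets that are hard for NP under low degree polynomial reductions -/

namespace Pool.Agent.Lib.MP_634427_lc.Cobham.PolyRed

open Pool.Agent.Lib.MP_634427_lc.Cobham

/-- `T` is contained in a P-printable set: in polynomial time one can list, given `0^n`, strings
among which are all elements of `T` of length at most `n`. -/
def InPrintable (T : Set Str) : Prop :=
  ∃ pr : Str → List Str, FP pr ∧
    ∀ (n : ℕ), ∀ s ∈ T, s.length ≤ n → s ∈ pr (List.replicate n false)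

open Classical in
/-- value at the characteristic function of `T` of the polynomial over `F_q` with the given list of
monomials (coefficient, variables) -/
noncomputable def evalPoly (q : ℕ) (T : Set Str) (P : List (Fin q × List Str)) : ZMod q :=
  (P.map fun m => if ∀ s ∈ m.2, s ∈ T then ((m.1 : ℕ) : ZMod q) else 0).sum

/-- `L` reduces to `T` by a polynomial time computable map to explicitly given polynomials over
`F_q` of degree at most `d`: `x ∈ L` iff the polynomial computed from `x` does not vanish at the
characteristic function of `T`. -/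
def PolyReduces (q d : ℕ) (L T : Set Str) : Prop :=
  ∃ f : Str → List (Fin q × List Str), FP f ∧ (∀ x, ∀ m ∈ f x, m.2.length ≤ d) ∧
    ∀ x, x ∈ L ↔ evalPoly q T (f x) ≠ 0

lemma tally_inPrintable {T : Set Str} (hT : Tally T) : InPrintable T := by
  refine ⟨fun x => x.foldl (fun s _ => [] :: s.map fun u => false :: u) [[]], ?_, ?_⟩
  · have key : ∀ (l : Str), (l.foldl (fun (s : List Str) _ => [] :: s.map fun u => false :: u)
        [[]]).length = l.length + 1 ∧ ∀ u ∈ l.foldl (fun (s : List Str) _ => [] :: s.map fun u =>
          false :: u) [[]], u.length ≤ l.length := by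
      intro l
      induction l using List.reverseRecOn with
      | nil => simp
      | append_singleton l b ih =>
        rw [List.foldl_append, List.foldl_cons, List.foldl_nil]
        refine ⟨by simp [ih.1], ?_⟩
        intro u hu
        rcases List.mem_cons.1 hu with rfl | hu
        · simp
        · obtain ⟨v, hv, rfl⟩ := List.mem_map.1 hu
          simpa using ih.2 v hv
    refine .foldl' (h := fun _ (s : List Str) (_ : Bool) => [] :: s.map fun u => false :: u)
      (B := fun x => (size x + 1) * (2 * size x + 2) + 1) .id (.const _)
      (.cons' (.const _) (.map (h := fun _ u => false :: u) (.fst' .snd)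
        (.cons' (.const _) .snd))) (((PB.size.add (PB.const 1)).mul
          (((PB.const 2).mul PB.size).add (PB.const 2))).add (PB.const 1)) ?_
    intro x l hl
    obtain ⟨h1, h2⟩ := key l
    have h3 := hl.length_le
    have h4 := length_lt_size x
    refine (size_list_le _ (2 * size x + 1) ?_).trans ?_
    · intro u hu
      have := h2 u hu
      rw [size_str]
      omega
    · rw [h1]
      exact Nat.add_le_add_right (Nat.mul_le_mul (by omega) le_rfl) 1
  · intro n s hs hn
    obtain ⟨k, rfl⟩ : ∃ k, s = List.replicate k false :=
      ⟨_, List.eq_replicate_iff.2 ⟨rfl, hT s hs⟩⟩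
    rw [List.length_replicate] at hn
    clear hs
    dsimp only
    induction n generalizing k with
    | zero =>
      have : k = 0 := by omega
      subst this
      simp
    | succ n ih =>
      rw [List.replicate_succ', List.foldl_append, List.foldl_cons, List.foldl_nil]
      cases k with
      | zero => simp
      | succ k =>
        rw [List.replicate_succ]
        exact List.mem_cons_of_mem _ (List.mem_map.2 ⟨_, ih k (by omega), rfl⟩)

section

variable {q : ℕ} [hq : Fact q.Prime]

/-- product of polynomials -/
def pmul (P Q : List (Fin q × List Str)) : List (Fin q × List Str) :=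
  P.flatMap fun m => Q.map fun m' => (ofK (toK m.1 * toK m'.1), m.2 ++ m'.2)

/-- power of a polynomial -/
def ppow (P : List (Fin q × List Str)) : ℕ → List (Fin q × List Str)
  | 0 => [(ofK 1, [])]
  | n + 1 => pmul P (ppow P n)

open Classical in
lemma evalPoly_cons (T : Set Str) (m : Fin q × List Str) (P : List (Fin q × List Str)) :
    evalPoly q T (m :: P) = (if ∀ s ∈ m.2, s ∈ T then toK m.1 else 0) + evalPoly q T P := by
  rw [evalPoly, List.map_cons, List.sum_cons]
  rfl

lemma evalPoly_append (T : Set Str) (P Q : List (Fin q × List Str)) :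
    evalPoly q T (P ++ Q) = evalPoly q T P + evalPoly q T Q := by
  rw [evalPoly, List.map_append, List.sum_append]
  rfl

lemma evalPoly_pmul (T : Set Str) (P Q : List (Fin q × List Str)) :
    evalPoly q T (pmul P Q) = evalPoly q T P * evalPoly q T Q := by
  classical
  induction P with
  | nil => simp [pmul, evalPoly]
  | cons m P ih =>
    have h1 : pmul (m :: P) Q = (Q.map fun m' => (ofK (toK m.1 * toK m'.1), m.2 ++ m'.2)) ++
      pmul P Q := by rw [pmul, List.flatMap_cons, pmul]
    have h2 : ∀ Q : List (Fin q × List Str), evalPoly q T
        (Q.map fun m' => (ofK (toK m.1 * toK m'.1), m.2 ++ m'.2)) =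
        (if ∀ s ∈ m.2, s ∈ T then toK m.1 else 0) * evalPoly q T Q := by
      intro Q
      induction Q with
      | nil => simp [evalPoly]
      | cons m' Q ihQ =>
        rw [List.map_cons, evalPoly_cons, evalPoly_cons, ihQ, mul_add]
        congr 1
        dsimp only
        rw [toK_ofK]
        by_cases c1 : ∀ s ∈ m.2, s ∈ T
        · by_cases c2 : ∀ s ∈ m'.2, s ∈ T
          · rw [if_pos c1, if_pos c2, if_pos]
            intro s hs
            rcases List.mem_append.1 hs with hs | hs
            · exact c1 s hs
            · exact c2 s hs
          · rw [if_pos c1, if_neg c2, if_neg, mul_zero]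
            intro h
            exact c2 fun s hs => h s (List.mem_append_right _ hs)
        · rw [if_neg c1, if_neg, zero_mul]
          intro h
          exact c1 fun s hs => h s (List.mem_append_left _ hs)
    rw [h1, evalPoly_append, h2, ih, evalPoly_cons]
    ring

lemma evalPoly_ppow (T : Set Str) (P : List (Fin q × List Str)) (n : ℕ) :
    evalPoly q T (ppow P n) = evalPoly q T P ^ n := by
  induction n with
  | zero =>
    rw [ppow, evalPoly_cons, pow_zero]
    simp [evalPoly]
  | succ n ih => rw [ppow, evalPoly_pmul, ih, pow_succ']

lemma length_ppow {d : ℕ} {P : List (Fin q × List Str)} (h : ∀ m ∈ P, m.2.length ≤ d) (n : ℕ) :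
    ∀ m ∈ ppow P n, m.2.length ≤ n * d := by
  induction n with
  | zero =>
    intro m hm
    rw [ppow, List.mem_singleton] at hm
    simp [hm]
  | succ n ih =>
    intro m hm
    rw [ppow, pmul, List.mem_flatMap] at hm
    obtain ⟨a, ha, hm⟩ := hm
    obtain ⟨b, hb, rfl⟩ := List.mem_map.1 hm
    have := h a ha
    have := ih b hb
    simp only [List.length_append]
    rw [Nat.succ_mul]
    omega

lemma FP_ppow {f : Str → List (Fin q × List Str)} (hf : FP f) (n : ℕ) :
    FP (fun x => ppow (f x) n) := by
  induction n with
  | zero => exact .const _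
  | succ n ih =>
    refine .flatMap (h := fun x m => (ppow (f x) n).map fun m' =>
      (ofK (toK m.1 * toK m'.1), m.2 ++ m'.2)) hf ?_
    refine .map (h := fun (p : Str × Fin q × List Str) (m' : Fin q × List Str) =>
      (ofK (toK p.2.1 * toK m'.1), p.2.2 ++ m'.2)) (ih.comp .fst) ?_
    exact .pair (.comp (g := fun p : Fin q × Fin q => ofK (toK p.1 * toK p.2)) (.table _)
      (.pair (.fst' (.snd' .fst)) (.fst' .snd))) (.append (.snd' (.snd' .fst)) (.snd' .snd))

/-- all lists of length at most `d` with entries in `l` -/
def monos (l : List Str) : ℕ → List (List Str)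
  | 0 => [[]]
  | d + 1 => [] :: l.flatMap fun s => (monos l d).map fun m => s :: m

lemma mem_monos {l : List Str} {d : ℕ} {m : List Str} (hm : m.length ≤ d) (h : ∀ s ∈ m, s ∈ l) :
    m ∈ monos l d := by
  induction d generalizing m with
  | zero =>
    have : m = [] := by rwa [Nat.le_zero, List.length_eq_zero_iff] at hm
    simp [monos, this]
  | succ d ih =>
    cases m with
    | nil => simp [monos]
    | cons s m =>
      refine List.mem_cons_of_mem _ (List.mem_flatMap.2 ⟨s, h s List.mem_cons_self, ?_⟩)
      exact List.mem_map.2 ⟨m, ih (by simpa using hm)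
        (fun t ht => h t (List.mem_cons_of_mem _ ht)), rfl⟩

lemma FP_monos {α : Type} [Data α] {l : α → List Str} (hl : FP l) (d : ℕ) :
    FP (fun x => monos (l x) d) := by
  induction d with
  | zero => exact .const _
  | succ d ih =>
    refine .cons' (.const _) (.flatMap (h := fun x s => (monos (l x) d).map fun m => s :: m) hl ?_)
    exact .map (h := fun p m => p.2 :: m) (ih.comp .fst) (.cons' (.snd' .fst) .snd)

/-- coefficient of a monomial -/
def coef (P : List (Fin q × List Str)) (m : List Str) : Fin q :=
  P.foldl (fun s a => if a.2 = m then ofK (toK s + toK a.1) else s) (ofK 0)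

lemma toK_coef (P : List (Fin q × List Str)) (m : List Str) :
    toK (coef P m) = (P.map fun a => if a.2 = m then toK a.1 else 0).sum := by
  have key : ∀ (P : List (Fin q × List Str)) (s : Fin q), toK (P.foldl (fun s a =>
      if a.2 = m then ofK (toK s + toK a.1) else s) s) =
      toK s + (P.map fun a => if a.2 = m then toK a.1 else 0).sum := by
    intro P
    induction P with
    | nil => intro s; simp
    | cons a P ih =>
      intro s
      rw [List.foldl_cons, ih, List.map_cons, List.sum_cons]
      split_ifs
      · rw [toK_ofK, add_assoc]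
      · rw [zero_add]
  rw [coef, key, toK_ofK, zero_add]

open Classical in
/-- the coefficient functional of `T` with respect to a list of monomials -/
noncomputable def tau (T : Set Str) (seen l : List (List Str)) (j : ℕ) : ZMod q :=
  if (∀ s ∈ l.getD j [], s ∈ T) ∧ l.getD j [] ∉ seen ++ l.take j then 1 else 0

open Classical in
lemma dot_tau (T : Set Str) (g : List Str → Fin q) (l seen : List (List Str)) :
    dot (tau T seen l) (l.map g) =
      ∑ m ∈ (l.toFinset \ seen.toFinset).filter (fun m => ∀ s ∈ m, s ∈ T),
        toK (g m) := by
  classical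
  induction l generalizing seen with
  | nil => simp [dot]
  | cons a l ih =>
    have h1 : (fun n => tau (q := q) T seen (a :: l) (n + 1)) = tau T (seen ++ [a]) l := by
      funext j
      simp [tau]
    rw [List.map_cons, dot, h1, ih]
    have h2 : tau (q := q) T seen (a :: l) 0 = if (∀ s ∈ a, s ∈ T) ∧ a ∉ seen then 1 else 0 := by
      simp [tau]
    rw [h2]
    by_cases c : (∀ s ∈ a, s ∈ T) ∧ a ∉ seen
    · rw [if_pos c, mul_one]
      have h3 : ((a :: l).toFinset \ seen.toFinset).filter (fun m => ∀ s ∈ m, s ∈ T) =
          insert a ((l.toFinset \ (seen ++ [a]).toFinset).filter (fun m => ∀ s ∈ m, s ∈ T)) := by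
        ext m
        simp only [Finset.mem_filter, Finset.mem_sdiff, List.mem_toFinset, List.mem_cons,
          Finset.mem_insert, List.mem_append, List.not_mem_nil, or_false]
        by_cases hm : m = a
        · subst hm
          simp only [true_or, true_and, c.2, not_false_eq_true]
          exact ⟨fun _ => trivial, fun _ => c.1⟩
        · simp [hm]
      rw [h3, Finset.sum_insert (by simp)]
    · rw [if_neg c, mul_zero, zero_add]
      refine Finset.sum_congr ?_ fun _ _ => rfl
      ext m
      simp only [Finset.mem_filter, Finset.mem_sdiff, List.mem_toFinset, List.mem_cons,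
        List.mem_append, List.not_mem_nil, or_false]
      by_cases hm : m = a
      · subst hm
        constructor
        · rintro ⟨⟨_, h⟩, _⟩
          exact absurd (Or.inr rfl) h
        · rintro ⟨⟨_, h⟩, h'⟩
          exact absurd ⟨h', h⟩ c
      · simp [hm]

lemma dot_eq_evalPoly (T : Set Str) (P : List (Fin q × List Str)) (l : List (List Str))
    (h : ∀ m ∈ P, (∀ s ∈ m.2, s ∈ T) → m.2 ∈ l) :
    dot (tau T [] l) (l.map (coef P)) = evalPoly q T P := by
  classical
  rw [dot_tau]
  simp only [List.toFinset_nil, Finset.sdiff_empty, toK_coef]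
  induction P with
  | nil => simp [evalPoly]
  | cons a P ih =>
    rw [evalPoly_cons, ← ih fun m hm => h m (List.mem_cons_of_mem _ hm)]
    simp only [List.map_cons, List.sum_cons, Finset.sum_add_distrib]
    congr 1
    rw [Finset.sum_ite_eq]
    by_cases c : ∀ s ∈ a.2, s ∈ T
    · rw [if_pos c, if_pos]
      rw [Finset.mem_filter, List.mem_toFinset]
      exact ⟨h a List.mem_cons_self c, c⟩
    · rw [if_neg c, if_neg]
      rw [Finset.mem_filter]
      exact fun h => c h.2

lemma inP_of_hard {q d : ℕ} [hq : Fact q.Prime] {T : Set Str} (hT : InPrintable T) {L : Set Str}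
    {c : ℕ} {R : Str × Str → Bool} (hR : FP R)
    (hL : ∀ x, x ∈ L ↔ ∃ y : Str, y.length = x.length ^ c + c ∧ R (x, y) = true)
    (hard : PolyReduces q d (leftSet c R) T) : InP L := by
  classical
  obtain ⟨f, hf, hfd, hfL⟩ := hard
  obtain ⟨pr, hpr, hprT⟩ := hT
  have hF : FP (fun x => ppow (f x) (q - 1)) := FP_ppow hf (q - 1)
  obtain ⟨k, hk⟩ := hF.bound
  set N : Str → ℕ := fun x => (4 * x.length + 2 * plen c x + 5) ^ k with hN
  have hNF : FPN N := ((((FPN.const 4).mul (.length .id)).add ((FPN.const 2).mul
    (FPN_plen c))).add (.const 5)).pow k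
  set Ω : Str → List (List Str) := fun x => monos (pr (List.replicate (N x) false)) ((q - 1) * d)
    with hΩ
  have hΩF : FP Ω := FP_monos (.comp hpr (.replicate hNF (.const _))) _
  set V : Str → Str → List (Fin q) := fun x u =>
    (Ω x).map (coef (ppow (f (enc x u)) (q - 1))) with hV
  have hVF : FP (fun p : Str × Str => V p.1 p.2) := by
    refine .map (h := fun p m => coef (ppow (f (enc p.1 p.2)) (q - 1)) m) (hΩF.comp .fst) ?_
    refine .foldl_fin (h := fun (p : (Str × Str) × List Str) s a =>
      if a.2 = p.2 then ofK (toK s + toK a.1) else s) (.comp hF (.comp FP_enc .fst)) (.const _) ?_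
    exact .ite (.decEq (.snd' (.snd' .snd)) (.snd' .fst))
      (.comp (g := fun p : Fin q × Fin q => ofK (toK p.1 + toK p.2)) (.table _)
        (.pair (.fst' .snd) (.fst' (.snd' .snd)))) (.fst' .snd)
  have hVl : ∀ x u, (V x u).length = (Ω x).length := fun x u => by simp [hV]
  refine inP_of_prune hR hL (prune := fun x l => lprune (V x) l) (B := fun x => (Ω x).length)
    (FP_lprune hVF hVl) (fun x l => lprune_sublist (V x) (hVl x) l) ?_
    (fun x l => lprune_length (V x) (hVl x) l) ?_
  · exact hΩF.bound.mono fun x => (length_lt_size _).le
  · intro x l t ht hpw hlen htp htrue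
    obtain ⟨l1, l2, rfl⟩ := List.append_of_mem ht
    have hval : ∀ u : Str, u.length ≤ plen c x → dot (tau T [] (Ω x)) (V x u) =
        if enc x u ∈ leftSet c R then 1 else 0 := by
      intro u hu
      rw [hV]
      dsimp only
      rw [dot_eq_evalPoly, evalPoly_ppow]
      · by_cases hm : enc x u ∈ leftSet c R
        · rw [if_pos hm]
          exact ZMod.pow_card_sub_one_eq_one ((hfL _).1 hm)
        · rw [if_neg hm]
          have : evalPoly q T (f (enc x u)) = 0 := by
            by_contra h
            exact hm ((hfL _).2 h)
          rw [this, zero_pow]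
          have := hq.out.two_le
          omega
      · intro m hm hmT
        refine mem_monos ?_ ?_
        · exact length_ppow (hfd _) _ m hm
        · intro s hs
          refine hprT _ s (hmT s hs) ?_
          have h1 : size (ppow (f (enc x u)) (q - 1)) ≤ _ := hk (enc x u)
          rw [size_str, length_enc] at h1
          have h2 := size_le_of_mem hm
          have h3 := size_le_of_mem hs
          rw [size_str] at h3
          rw [size_prod] at h2
          have h4 : (2 * (2 * x.length + u.length + 1) + 1 + 2) ^ k ≤ N x := by
            rw [hN]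
            exact Nat.pow_le_pow_left (by omega) k
          omega
    rw [List.pairwise_append, List.pairwise_cons] at hpw
    refine lprune_keep (V x) (hVl x) (tau T [] (Ω x)) l1 l2 t ?_ ?_ ?_
    · rw [hval t htp, if_pos]
      rw [htrue t (by simp)]
    · intro u hu
      have hu' : u ∈ l1 ++ t :: l2 := List.mem_append_left _ hu
      rw [hval u (by rw [hlen u hu']; exact htp), if_pos]
      rw [htrue u hu']
      exact (hpw.2.2 u hu t List.mem_cons_self).le
    · intro u hu
      have hu' : u ∈ l1 ++ t :: l2 := List.mem_append_right _ (List.mem_cons_of_mem _ hu)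
      rw [hval u (by rw [hlen u hu']; exact htp), if_neg]
      rw [htrue u hu']
      have := hpw.2.1.1 u hu
      omega

end

/-- P = NP if and only if some set that is contained in a P-printable set (for example some tally
set) is hard for NP under polynomial time reductions to polynomials of bounded degree over prime
fields (with any number of monomials). -/
theorem polynomialReductions : PeqNP ↔ ∃ T : Set Str, InPrintable T ∧
    ∀ L, InNP L → ∃ q d : ℕ, q.Prime ∧ PolyReduces q d L T := by
  classical
  constructor
  · intro h
    refine ⟨∅, tally_inPrintable (fun x hx => absurd hx (Set.notMem_empty x)), fun L hL => ?_⟩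
    obtain ⟨f, hf, hfL⟩ := (h L).2 hL
    refine ⟨2, 0, Nat.prime_two, fun x => if f x = true then [(1, [])] else [],
      .cond hf (.const _) (.const _), ?_, ?_⟩
    · intro x m hm
      dsimp only at hm
      split_ifs at hm with c
      · rw [List.mem_singleton.1 hm]
        simp
      · simp at hm
    · intro x
      rw [hfL]
      dsimp only
      by_cases c : f x = true
      · rw [if_pos c]
        simp [c, evalPoly]
      · rw [if_neg c]
        simp [c, evalPoly]
  · rintro ⟨T, hT, hard⟩ L
    refine ⟨InP.inNP, ?_⟩
    rintro ⟨c, R, hR, hL⟩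
    obtain ⟨q, d, hq, hred⟩ := hard _ (leftSet_inNP (c := c) hR)
    have : Fact q.Prime := ⟨hq⟩
    exact inP_of_hard hT hR hL hred

end Pool.Agent.Lib.MP_634427_lc.Cobham.PolyRed
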