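import Pool.Agent.Lib.MP_634427_lc.Cobham.FPLib2
import Pool.Agent.Lib.MP_634427_lc.Cobham.PolyRed

set_option autoImplicit false

/-! # Functions with at most `k` negative answers as polynomials of degree `k` over `F_2` -/

namespace Pool.Agent.Lib.MP_634427_lc.Cobham

open Pool.Agent.Lib.MP_634427_lc.Cobham.PolyRed

/-- sublists of length at most `k` -/
def subs : ℕ → List Str → List (List Str)
  | 0, _ => [[]]
  | k + 1, R => [] :: (List.range R.length).flatMap fun i =>
      (subs k (R.drop (i + 1))).map fun m => R.getD i [] :: m

lemma subs_nil (k : ℕ) : subs k [] = [[]] := by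
  cases k <;> simp [subs]

lemma sum_subs_cons {M : Type*} [AddCommMonoid M] (f : List Str → M) (k : ℕ) (a : Str)
    (R : List Str) : ((subs (k + 1) (a :: R)).map f).sum =
      ((subs k R).map fun m => f (a :: m)).sum + ((subs (k + 1) R).map f).sum := by
  have h1 : subs (k + 1) (a :: R) = [] :: ((subs k R).map (fun m => a :: m) ++
      (List.range R.length).flatMap fun i =>
        (subs k (R.drop (i + 1))).map fun m => R.getD i [] :: m) := by
    rw [subs, List.length_cons, List.range_succ_eq_map, List.flatMap_cons, List.flatMap_map]
    rfl
  rw [h1, subs]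
  simp only [List.map_cons, List.map_append, List.sum_cons, List.sum_append, List.map_map]
  rw [add_left_comm]
  rfl

lemma subs_spec (k : ℕ) (R m : List Str) (hm : m ∈ subs k R) :
    m.length ≤ k ∧ ∀ s ∈ m, s ∈ R := by
  induction k generalizing R m with
  | zero =>
    have : m = [] := by simpa [subs] using hm
    simp [this]
  | succ k ih =>
    rw [subs, List.mem_cons, List.mem_flatMap] at hm
    rcases hm with rfl | ⟨i, hi, hm⟩
    · simp
    · obtain ⟨m', hm', rfl⟩ := List.mem_map.1 hm
      obtain ⟨h1, h2⟩ := ih _ _ hm'
      refine ⟨by simpa using h1, ?_⟩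
      intro s hs
      rcases List.mem_cons.1 hs with rfl | hs
      · rw [List.getD_eq_getElem _ _ (List.mem_range.1 hi)]
        exact List.getElem_mem _
      · exact List.mem_of_mem_drop (h2 s hs)

lemma FP_subs {α : Type} [Data α] {l : α → List Str} (hl : FP l) (k : ℕ) :
    FP (fun x => subs k (l x)) := by
  induction k generalizing α with
  | zero => exact .const _
  | succ k ih =>
    refine .cons' (.const _) (FP.flatMapRange (h := fun x i =>
      (subs k ((l x).drop (i + 1))).map fun m => (l x).getD i [] :: m) (.length hl) ?_)
    refine .map (h := fun (p : α × List (Fin 1)) m => (l p.1).getD p.2.length [] :: m)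
      (ih (l := fun p : α × List (Fin 1) => (l p.1).drop (p.2.length + 1))
        (.drop ((FPN.length .snd).add (.const 1)) (hl.comp .fst))) ?_
    exact .cons' (.getD (hl.comp (.fst' .fst)) (.length (.snd' .fst)) (.const _)) .snd

/-- sum over all sublists -/
def fs (G : List Str → ZMod 2) (U : List Str) : ZMod 2 := (U.sublists'.map G).sum

lemma fs_cons (G : List Str → ZMod 2) (a : Str) (U : List Str) :
    fs G (a :: U) = fs G U + fs (fun m => G (a :: m)) U := by
  simp only [fs, List.sublists'_cons, List.map_append, List.sum_append, List.map_map]
  rfl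

lemma sum_subs (G : List Str → ZMod 2) (k : ℕ) (U : List Str) (h : U.length ≤ k) :
    ((subs k U).map G).sum = fs G U := by
  induction U generalizing k G with
  | nil => rw [subs_nil]; rfl
  | cons a U ih =>
    cases k with
    | zero => simp at h
    | succ k =>
      rw [List.length_cons] at h
      rw [sum_subs_cons, fs_cons, ih _ _ (by omega), ih _ _ (by omega), add_comm]

lemma moebius (P : Str → Prop) [DecidablePred P] (G : List Str → ZMod 2) (k : ℕ) (R : List Str)
    (h : (R.filter fun s => decide (P s)).length ≤ k) :
    ((subs k R).map fun U => if ∀ s ∈ U, P s then fs G U else 0).sum =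
      G (R.filter fun s => decide (P s)) := by
  induction R generalizing k G with
  | nil => simp [subs_nil, fs]
  | cons a R ih =>
    cases k with
    | zero =>
      have h0 : ((a :: R).filter fun s => decide (P s)) = [] := by
        rwa [Nat.le_zero, List.length_eq_zero_iff] at h
      rw [h0]
      simp [subs, fs]
    | succ k =>
      rw [sum_subs_cons]
      by_cases c : P a
      · rw [List.filter_cons_of_pos (by simpa using c)] at h ⊢
        rw [List.length_cons] at h
        have e : (fun m => if ∀ s ∈ a :: m, P s then fs G (a :: m) else 0) = fun m =>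
            (if ∀ s ∈ m, P s then fs G m else 0) +
              (if ∀ s ∈ m, P s then fs (fun m => G (a :: m)) m else 0) := by
          funext m
          by_cases c' : ∀ s ∈ m, P s
          · rw [if_pos c', if_pos c', if_pos, fs_cons]
            intro s hs
            rcases List.mem_cons.1 hs with rfl | hs
            · exact c
            · exact c' s hs
          · rw [if_neg c', if_neg c', if_neg, add_zero]
            exact fun h => c' fun s hs => h s (List.mem_cons_of_mem _ hs)
        rw [e, List.sum_map_add, ih _ _ (by omega), ih _ _ (by omega), ih _ _ (by omega)]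
        have : ∀ a b : ZMod 2, a + b + a = b := by decide
        exact this _ _
      · rw [List.filter_cons_of_neg (by simpa using c)] at h ⊢
        rw [ih _ _ h]
        have e : (fun m => if ∀ s ∈ a :: m, P s then fs G (a :: m) else 0) = fun _ => 0 := by
          funext m
          rw [if_neg]
          exact fun h => c (h a List.mem_cons_self)
        rw [e]
        simp

/-- strings of `Q` inside `F`, without repetitions -/
def inside (F Q : List Str) : List Str := (Q.filter fun s => decide (s ∈ F)).dedup

/-- strings of `Q` outside `F`, without repetitions -/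
def outside (F Q : List Str) : List Str := (Q.filter fun s => !decide (s ∈ F)).dedup

lemma mem_inside {F Q : List Str} {s : Str} : s ∈ inside F Q ↔ s ∈ Q ∧ s ∈ F := by
  simp [inside]

lemma mem_outside {F Q : List Str} {s : Str} : s ∈ outside F Q ↔ s ∈ Q ∧ s ∉ F := by
  simp [outside]

/-- the answers when the strings in `V` and the strings outside `F` get the answer no -/
def ans (F Q V : List Str) : List Bool := Q.map fun s => decide (s ∈ F) && !decide (s ∈ V)

/-- a Boolean value as an element of the field with two elements -/
def bit (b : Bool) : Fin 2 := if b = true then 1 else 0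

/-- the coefficient of a monomial -/
def csum (k : ℕ) (e : List Bool → Bool) (F Q U : List Str) : Fin 2 :=
  (subs k U).foldl (fun s V => ofK (toK s + toK (bit (e (ans F Q V))))) (ofK 0)

/-- the polynomial of the node -/
def rowPoly (k : ℕ) (e : List Bool → Bool) (F Q : List Str) : List (Fin 2 × List Str) :=
  (subs k (inside F Q)).map fun U => (csum k e F Q U, U)

lemma toK_csum (k : ℕ) (e : List Bool → Bool) (F Q U : List Str) :
    toK (csum k e F Q U) = ((subs k U).map fun V => toK (bit (e (ans F Q V)))).sum := by
  have key : ∀ (l : List (List Str)) (s : Fin 2), toK (l.foldl (fun s V =>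
      ofK (toK s + toK (bit (e (ans F Q V))))) s) =
      toK s + (l.map fun V => toK (bit (e (ans F Q V)))).sum := by
    intro l
    induction l with
    | nil => intro s; simp
    | cons a l ih =>
      intro s
      rw [List.foldl_cons, ih, List.map_cons, List.sum_cons, toK_ofK, add_assoc]
  rw [csum, key, toK_ofK, zero_add]

open Classical in
lemma evalPoly_rowPoly {k : ℕ} {e : List Bool → Bool} {F Q : List Str} {S : Set Str}
    (hk : (Q.toFinset.filter fun s => s ∉ S).card ≤ k) (hF : ∀ s ∈ Q, s ∉ F → s ∉ S) :
    evalPoly 2 Sᶜ (rowPoly k e F Q) = if e (Q.map fun s => decide (s ∈ S)) = true then 1 else 0 := by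
  have h1 : ((inside F Q).filter fun s => decide (s ∉ S)).length ≤ k := by
    have hnd : ((inside F Q).filter fun s => decide (s ∉ S)).Nodup :=
      (List.nodup_dedup _).filter _
    rw [← List.toFinset_card_of_nodup hnd]
    refine (Finset.card_le_card ?_).trans hk
    intro s hs
    rw [List.mem_toFinset, List.mem_filter, mem_inside] at hs
    rw [Finset.mem_filter, List.mem_toFinset]
    exact ⟨hs.1.1, by simpa using hs.2⟩
  have h2 : evalPoly 2 Sᶜ (rowPoly k e F Q) = ((subs k (inside F Q)).map fun U =>
      if ∀ s ∈ U, s ∉ S then fs (fun V => toK (bit (e (ans F Q V)))) U else 0).sum := by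
    rw [evalPoly, rowPoly, List.map_map]
    refine congrArg List.sum (List.map_congr_left fun U hU => ?_)
    rw [← sum_subs _ k U (subs_spec _ _ _ hU).1, ← toK_csum]
    by_cases c : ∀ s ∈ U, s ∉ S
    · rw [if_pos c]
      exact if_pos c
    · rw [if_neg c]
      exact if_neg c
  rw [h2, moebius (fun s => s ∉ S) _ _ _ h1]
  have h3 : ans F Q ((inside F Q).filter fun s => decide (s ∉ S)) =
      Q.map fun s => decide (s ∈ S) := by
    refine List.map_congr_left fun s hs => ?_
    rw [Bool.eq_iff_iff]
    simp only [Bool.and_eq_true, decide_eq_true_eq, Bool.not_eq_true', decide_eq_false_iff_not,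
      List.mem_filter, mem_inside]
    constructor
    · rintro ⟨h, h'⟩
      by_contra hc
      exact h' ⟨⟨hs, h⟩, hc⟩
    · intro h
      have hsF : s ∈ F := by
        by_contra hc
        exact hF s hs hc h
      exact ⟨hsF, fun h' => h'.2 h⟩
  rw [h3]
  unfold bit
  split_ifs <;> simp [toK]

end Pool.Agent.Lib.MP_634427_lc.Cobham
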