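import Pool.Agent.Lib.MP_634427_lc.Cobham.Greedy

set_option autoImplicit false

/-! # Pruning for reductions with at most `k` negative answers -/

namespace Pool.Agent.Lib.MP_634427_lc.Cobham

open Pool.Agent.Lib.MP_634427_lc.Cobham.PolyRed

section

variable (k p : ℕ) (Q : Str → List Str) (e : Str → List Bool → Bool)

/-- the row of a node -/
def vec (F : List Str) (u : Str) : List (Fin 2) :=
  (monos F k).map (coef (rowPoly k (e u) F (Q u)))

/-- the queries outside `F` -/
def out (F : List Str) (u : Str) : List Str := outside F (Q u)

/-- a pruning step -/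
def prune1 : ℕ → List Str → List Str → List Str
  | 0, F, l =>
    if decide (((monos F k).length + 1) * gsz (monos F k).length p ≤
        (greedy (out Q F) l).length) = true then
      l.filter fun u => !decide (u ∈ worst (vec k Q e F) (monos F k).length p (greedy (out Q F) l))
    else l
  | j + 1, F, l =>
    if decide (((monos F k).length + 1) * gsz (monos F k).length p ≤
        (greedy (out Q F) l).length) = true then
      l.filter fun u => !decide (u ∈ worst (vec k Q e F) (monos F k).length p (greedy (out Q F) l))
    else prune1 j (F ++ (greedy (out Q F) l).flatMap (out Q F)) l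

/-- a closure step: afterwards every node with more than `k` queries outside has fewer of them -/
def close (l F : List Str) : List Str :=
  F ++ (greedy (out Q F) (l.filter fun u => decide (k < (out Q F u).length))).flatMap (out Q F)

/-- the starting set of strings -/
def start (N : ℕ) (l : List Str) : List Str := (close k Q l)^[N] []

/-- the pruning function -/
def nprune (N : ℕ) (l : List Str) : List Str :=
  (fun l => prune1 k p Q e k (start k Q N l) l)^[l.length] l

end

variable {k p N : ℕ} {Q : Str → List Str} {e : Str → List Bool → Bool} {S : Set Str}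

lemma mem_out {F : List Str} {u s : Str} : s ∈ out Q F u ↔ s ∈ Q u ∧ s ∉ F := mem_outside

lemma out_mono {F F' : List Str} (h : ∀ s ∈ F, s ∈ F') (u : Str) :
    (out Q F' u).length ≤ (out Q F u).length := by
  refine (List.subperm_of_subset (List.nodup_dedup _) ?_).length_le
  intro s hs
  have := mem_out.1 hs
  exact mem_out.2 ⟨this.1, fun h' => this.2 (h s h')⟩

lemma out_lt {F F' : List Str} (h : ∀ s ∈ F, s ∈ F') {u s : Str} (hs : s ∈ out Q F u)
    (hs' : s ∈ F') : (out Q F' u).length < (out Q F u).length := by
  have h1 : (s :: out Q F' u).Nodup := by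
    rw [List.nodup_cons]
    exact ⟨fun h => (mem_out.1 h).2 hs', List.nodup_dedup _⟩
  have h2 := (List.subperm_of_subset (l₂ := out Q F u) h1 (by
    intro t ht
    rcases List.mem_cons.1 ht with rfl | ht
    · exact hs
    · have := mem_out.1 ht
      exact mem_out.2 ⟨this.1, fun h' => this.2 (h t h')⟩)).length_le
  simpa using h2

lemma out_length_le (F : List Str) (u : Str) : (out Q F u).length ≤ (Q u).length :=
  ((List.dedup_sublist _).trans List.filter_sublist).length_le

lemma out_step {F : List Str} {l : List Str} {u : Str} (hu : u ∈ l) :
    (out Q (F ++ (greedy (out Q F) l).flatMap (out Q F)) u).length ≤ (out Q F u).length - 1 := by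
  rcases greedy_max (out Q F) l u hu with h | ⟨s, hs, hs'⟩
  · refine (out_mono (F := F) (fun s hs => List.mem_append_left _ hs) u).trans ?_
    rw [h]
    simp
  · have := out_lt (F := F) (F' := F ++ (greedy (out Q F) l).flatMap (out Q F))
      (fun s hs => List.mem_append_left _ hs) hs (List.mem_append_right _ hs')
    omega

lemma out_close {F : List Str} {l : List Str} {u : Str} (hu : u ∈ l) :
    (out Q (close k Q l F) u).length ≤ max k ((out Q F u).length - 1) := by
  by_cases c : k < (out Q F u).length
  · exact (out_step (List.mem_filter.2 ⟨hu, by simpa using c⟩)).trans (le_max_right _ _)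
  · exact (out_mono (F := F) (fun s hs => List.mem_append_left _ hs) u).trans
      ((not_lt.1 c).trans (le_max_left _ _))

lemma out_start (hQ : ∀ u, (Q u).length ≤ N) {l : List Str} {u : Str} (hu : u ∈ l) :
    (out Q (start k Q N l) u).length ≤ k := by
  have key : ∀ i, (out Q ((close k Q l)^[i] []) u).length ≤ max k (N - i) := by
    intro i
    induction i with
    | zero => exact ((out_length_le _ _).trans (hQ u)).trans (le_max_right _ _)
    | succ i ih =>
      rw [Function.iterate_succ_apply']
      refine (out_close hu).trans ?_
      omega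
  have := key N
  rw [Nat.sub_self, Nat.max_zero] at this
  exact this

/-- a node with more than `k` queries outside `F` has a query in `S` outside `F` -/
lemma exists_mem_of_lt (hk : ∀ u, {s | s ∈ Q u ∧ s ∉ S}.ncard ≤ k) {F : List Str} {u : Str}
    (h : k < (out Q F u).length) : ∃ s ∈ out Q F u, s ∈ S := by
  classical
  by_contra hc
  push Not at hc
  refine absurd (hk u) (not_le.2 (h.trans_le ?_))
  rw [← List.toFinset_card_of_nodup (l := out Q F u) (List.nodup_dedup _), ← Set.ncard_coe_finset]
  refine Set.ncard_le_ncard ?_ ?_
  · intro s hs
    have hs' : s ∈ out Q F u := by simpa using hs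
    exact ⟨(mem_out.1 hs').1, hc s hs'⟩
  · exact (Q u).toFinset.finite_toSet.subset fun s hs => by simpa using hs.1

lemma length_flatMap_le {D : List Str} {K : Str → List Str} {n : ℕ}
    (h : ∀ u ∈ D, (K u).length ≤ n) : (D.flatMap K).length ≤ D.length * n := by
  induction D with
  | nil => simp
  | cons a D ih =>
    rw [List.flatMap_cons, List.length_append, List.length_cons, add_mul, one_mul]
    have := h a List.mem_cons_self
    have := ih fun u hu => h u (List.mem_cons_of_mem _ hu)
    omega

lemma length_start (hQ : ∀ u, (Q u).length ≤ N) (hQl : ∀ u, ∀ s ∈ Q u, s.length ≤ N)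
    (hS : ∀ B : Finset Str, (∀ s ∈ B, s ∈ S ∧ s.length ≤ N) → B.card ≤ p)
    (hk : ∀ u, {s | s ∈ Q u ∧ s ∉ S}.ncard ≤ k) (l : List Str) :
    (start k Q N l).length ≤ N * (p * N) := by
  have key : ∀ i, ((close k Q l)^[i] []).length ≤ i * (p * N) := by
    intro i
    induction i with
    | zero => simp
    | succ i ih =>
      rw [Function.iterate_succ_apply']
      generalize (close k Q l)^[i] [] = F at *
      rw [close, List.length_append, add_mul, one_mul]
      refine Nat.add_le_add ih ?_
      have h1 : (greedy (out Q F) (l.filter fun u =>
          decide (k < (out Q F u).length))).length ≤ p := by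
        refine length_le_of_meet (K := out Q F) (A := {s | s ∈ S ∧ s.length ≤ N}) hS
          (greedy_disj _ _) ?_
        intro u hu
        have hu' := List.mem_filter.1 ((greedy_sublist _ _).subset hu)
        obtain ⟨s, hs, hsS⟩ := exists_mem_of_lt hk (by simpa using hu'.2 : k < (out Q F u).length)
        exact ⟨s, hs, hsS, hQl u s (mem_out.1 hs).1⟩
      refine (length_flatMap_le (n := N) fun u _ => (out_length_le _ _).trans (hQ u)).trans ?_
      exact Nat.mul_le_mul_right _ h1
  exact key N

/-- number of lists of length at most `k` -/
def mlen : ℕ → ℕ → ℕ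
  | 0, _ => 1
  | k + 1, n => 1 + n * mlen k n

lemma length_monos (F : List Str) (k : ℕ) : (monos F k).length = mlen k F.length := by
  induction k with
  | zero => rfl
  | succ k ih =>
    have : ∀ l : List Str, (l.flatMap fun s => (monos F k).map fun m => s :: m).length =
        l.length * (monos F k).length := by
      intro l
      induction l with
      | nil => simp
      | cons a l ihl =>
        rw [List.flatMap_cons, List.length_append, ihl, List.length_cons, List.length_map]
        ring
    rw [monos, List.length_cons, this, ih, mlen]
    ring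

lemma mlen_mono (k : ℕ) : Monotone (mlen k) := by
  induction k with
  | zero => exact monotone_const
  | succ k ih => exact fun a b h => Nat.add_le_add_left (Nat.mul_le_mul h (ih h)) 1

/-- threshold of the pruning step -/
def thr (k p n : ℕ) : ℕ := (mlen k n + 1) * gsz (mlen k n) p

lemma thr_mono (k p : ℕ) : Monotone (thr k p) := by
  intro a b h
  have := mlen_mono k h
  unfold thr gsz
  gcongr

/-- bound for the length of a list that is not pruned -/
def bnd (k p : ℕ) : ℕ → ℕ → ℕ
  | 0, n => thr k p n
  | j + 1, n => bnd k p j (n + thr k p n * k)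

lemma bnd_mono (k p j : ℕ) : Monotone (bnd k p j) := by
  induction j with
  | zero => exact thr_mono k p
  | succ j ih =>
    intro a b h
    have := thr_mono k p h
    refine ih ?_
    gcongr

lemma length_vec (F : List Str) (u : Str) : (vec k Q e F u).length = (monos F k).length := by
  simp [vec]

lemma filter_lt {l W : List Str} (h : ∃ t ∈ l, t ∈ W) :
    (l.filter fun u => !decide (u ∈ W)).length < l.length := by
  obtain ⟨t, ht, htW⟩ := h
  rw [← List.countP_eq_length_filter]
  have h1 := List.length_eq_countP_add_countP (l := l) (p := fun u => !decide (u ∈ W))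
  have h2 : 0 < l.countP (fun a => decide ¬(!decide (a ∈ W)) = true) := by
    rw [List.countP_pos_iff]
    exact ⟨t, ht, by simpa using htW⟩
  omega

lemma prune1_eq (j : ℕ) (F l : List Str)
    (h : ((monos F k).length + 1) * gsz (monos F k).length p ≤ (greedy (out Q F) l).length) :
    prune1 k p Q e j F l = l.filter fun u =>
      !decide (u ∈ worst (vec k Q e F) (monos F k).length p (greedy (out Q F) l)) := by
  cases j <;> rw [prune1, if_pos (by simpa using h)]

lemma prune1_sublist (j : ℕ) (F l : List Str) : (prune1 k p Q e j F l).Sublist l := by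
  induction j generalizing F with
  | zero =>
    rw [prune1]
    split_ifs
    · exact List.filter_sublist
    · exact List.Sublist.refl _
  | succ j ih =>
    rw [prune1]
    split_ifs
    · exact List.filter_sublist
    · exact ih _

lemma sort_nodup {l : List Str} (h : l.Pairwise fun u v => val u < val v) : l.Nodup :=
  h.imp fun {a b} hab he => by rw [he] at hab; exact lt_irrefl _ hab

lemma prune1_length {l : List Str} (hl : l.Pairwise fun u v => val u < val v) (j : ℕ)
    (hj : j ≤ k) (F : List Str) (h : ∀ u ∈ l, (out Q F u).length ≤ j) :
    (prune1 k p Q e j F l).length < l.length ∨ l.length ≤ bnd k p j F.length := by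
  have hpr : ∀ (j : ℕ) (F : List Str),
      ((monos F k).length + 1) * gsz (monos F k).length p ≤ (greedy (out Q F) l).length →
      (prune1 k p Q e j F l).length < l.length := by
    intro j F c
    rw [prune1_eq j F l c]
    apply filter_lt
    have h1 := worst_ne_nil (V := vec k Q e F) (length_vec F) c
      (sort_nodup (hl.sublist (greedy_sublist _ _)))
    obtain ⟨t, ht⟩ := List.exists_mem_of_ne_nil _ h1
    exact ⟨t, (greedy_sublist _ _).subset (mem_of_mem_worst c ht), ht⟩
  induction j generalizing F with
  | zero =>
    by_cases c : ((monos F k).length + 1) * gsz (monos F k).length p ≤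
        (greedy (out Q F) l).length
    · exact Or.inl (hpr _ _ c)
    · right
      rw [greedy_all (out Q F) l (fun u hu => by
        have := h u hu
        rwa [Nat.le_zero, List.length_eq_zero_iff] at this)] at c
      rw [bnd, thr, ← length_monos]
      omega
  | succ j ih =>
    by_cases c : ((monos F k).length + 1) * gsz (monos F k).length p ≤
        (greedy (out Q F) l).length
    · exact Or.inl (hpr _ _ c)
    · rw [prune1, if_neg (by simpa using c), bnd]
      rcases ih (by omega) (F ++ (greedy (out Q F) l).flatMap (out Q F)) (fun u hu =>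
        (out_step hu).trans (by have := h u hu; omega)) with h1 | h1
      · exact Or.inl h1
      · right
        refine h1.trans (bnd_mono _ _ _ ?_)
        rw [List.length_append]
        refine Nat.add_le_add_left ?_ _
        refine (length_flatMap_le (n := k) fun u hu =>
          (h u ((greedy_sublist _ _).subset hu)).trans hj).trans ?_
        refine Nat.mul_le_mul_right _ ?_
        rw [thr, ← length_monos]
        omega

open Classical in
lemma prune1_keep (hQl : ∀ u, ∀ s ∈ Q u, s.length ≤ N)
    (hS : ∀ B : Finset Str, (∀ s ∈ B, s ∈ S ∧ s.length ≤ N) → B.card ≤ p)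
    (hk : ∀ u, {s | s ∈ Q u ∧ s ∉ S}.ncard ≤ k) {l : List Str}
    (hl : l.Pairwise fun u v => val u < val v) {t : Str} (ht : t ∈ l)
    (htrue : ∀ u ∈ l, e u ((Q u).map fun s => decide (s ∈ S)) = true ↔ val u ≤ val t)
    (j : ℕ) (F : List Str) : t ∈ prune1 k p Q e j F l := by
  have hpr : ∀ (j : ℕ) (F : List Str),
      ((monos F k).length + 1) * gsz (monos F k).length p ≤ (greedy (out Q F) l).length →
      t ∈ prune1 k p Q e j F l := by
    intro j F c
    rw [prune1_eq j F l c, List.mem_filter]
    refine ⟨ht, ?_⟩
    rw [Bool.not_eq_true', decide_eq_false_iff_not]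
    refine not_mem_worst (length_vec F) c (hl.sublist (greedy_sublist _ _))
      (tau Sᶜ [] (monos F k)) (K := out Q F) (A := {s | s ∈ S ∧ s.length ≤ N}) hS
      (greedy_disj _ _) ?_
    intro u hu hu'
    rw [vec, dot_eq_evalPoly, evalPoly_rowPoly]
    · have h1 := htrue u ((greedy_sublist _ _).subset hu)
      by_cases c' : val u ≤ val t
      · rw [if_pos c', if_pos (h1.2 c')]
      · rw [if_neg c', if_neg fun h => c' (h1.1 h)]
    · refine le_trans ?_ (hk u)
      rw [← Set.ncard_coe_finset]
      refine Set.ncard_le_ncard ?_ ?_
      · intro s hs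
        simpa using hs
      · exact (Q u).toFinset.finite_toSet.subset fun s hs => by simpa using hs.1
    · intro s hs hsF hsS
      exact hu' s (mem_out.2 ⟨hs, hsF⟩) ⟨hsS, hQl u s hs⟩
    · intro m hm _
      obtain ⟨U, hU, rfl⟩ := List.mem_map.1 hm
      obtain ⟨h1, h2⟩ := subs_spec _ _ _ hU
      exact mem_monos h1 fun s hs => (mem_inside.1 (h2 s hs)).2
  induction j generalizing F with
  | zero =>
    by_cases c : ((monos F k).length + 1) * gsz (monos F k).length p ≤
        (greedy (out Q F) l).length
    · exact hpr _ _ c
    · rw [prune1, if_neg (by simpa using c)]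
      exact ht
  | succ j ih =>
    by_cases c : ((monos F k).length + 1) * gsz (monos F k).length p ≤
        (greedy (out Q F) l).length
    · exact hpr _ _ c
    · rw [prune1, if_neg (by simpa using c)]
      exact ih _

lemma iterate_sublist {f : List Str → List Str} (hf : ∀ l, (f l).Sublist l) (n : ℕ)
    (l : List Str) : (f^[n] l).Sublist l := by
  induction n with
  | zero => exact List.Sublist.refl _
  | succ n ih =>
    rw [Function.iterate_succ_apply']
    exact (hf _).trans ih

lemma nprune_sublist (l : List Str) : (nprune k p Q e N l).Sublist l :=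
  iterate_sublist (fun _ => prune1_sublist _ _ _) _ _

open Classical in
lemma nprune_keep (hQl : ∀ u, ∀ s ∈ Q u, s.length ≤ N)
    (hS : ∀ B : Finset Str, (∀ s ∈ B, s ∈ S ∧ s.length ≤ N) → B.card ≤ p)
    (hk : ∀ u, {s | s ∈ Q u ∧ s ∉ S}.ncard ≤ k) {l : List Str}
    (hl : l.Pairwise fun u v => val u < val v) {t : Str} (ht : t ∈ l)
    (htrue : ∀ u ∈ l, e u ((Q u).map fun s => decide (s ∈ S)) = true ↔ val u ≤ val t) :
    t ∈ nprune k p Q e N l := by
  rw [nprune]
  have key : ∀ n, t ∈ (fun l => prune1 k p Q e k (start k Q N l) l)^[n] l := by
    intro n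
    induction n with
    | zero => exact ht
    | succ n ih =>
      rw [Function.iterate_succ_apply']
      have hsub := iterate_sublist (f := fun l => prune1 k p Q e k (start k Q N l) l)
        (fun _ => prune1_sublist _ _ _) n l
      generalize (fun l => prune1 k p Q e k (start k Q N l) l)^[n] l = m at *
      exact prune1_keep hQl hS hk (hl.sublist hsub) ih
        (fun u hu => htrue u (hsub.subset hu)) _ _
  exact key _

lemma nprune_length (hQ : ∀ u, (Q u).length ≤ N) (hQl : ∀ u, ∀ s ∈ Q u, s.length ≤ N)
    (hS : ∀ B : Finset Str, (∀ s ∈ B, s ∈ S ∧ s.length ≤ N) → B.card ≤ p)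
    (hk : ∀ u, {s | s ∈ Q u ∧ s ∉ S}.ncard ≤ k) {l : List Str}
    (hl : l.Pairwise fun u v => val u < val v) :
    (nprune k p Q e N l).length ≤ bnd k p k (N * (p * N)) := by
  rw [nprune]
  have key : ∀ n, ((fun l => prune1 k p Q e k (start k Q N l) l)^[n] l).length ≤
      max (bnd k p k (N * (p * N))) (l.length - n) := by
    intro n
    induction n with
    | zero => exact le_max_right _ _
    | succ n ih =>
      rw [Function.iterate_succ_apply']
      have hsub := iterate_sublist (f := fun l => prune1 k p Q e k (start k Q N l) l)
        (fun _ => prune1_sublist _ _ _) n l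
      generalize (fun l => prune1 k p Q e k (start k Q N l) l)^[n] l = m at *
      rcases prune1_length (e := e) (p := p) (hl.sublist hsub) k le_rfl (start k Q N m)
        (fun u hu => out_start hQ hu) with h | h
      · omega
      · have h1 := (prune1_sublist (k := k) (p := p) (Q := Q) (e := e) k
          (start k Q N m) m).length_le
        have h2 := bnd_mono k p k (length_start hQ hQl hS hk m)
        omega
  have := key l.length
  rwa [Nat.sub_self, Nat.max_zero] at this

end Pool.Agent.Lib.MP_634427_lc.Cobham
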